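import Mathlib

/-!
# Sumsets of boxes of exponents and their growth
-/

set_option autoImplicit false

namespace Pool.Agent.J6H31.LM

/-- the sums `∑ m_e e` with `0 ≤ m_e ≤ n` -/
noncomputable def bx (E : Finset ℕ) (n : ℕ) : Finset ℕ :=
  (Fintype.piFinset (fun _ : E => Finset.range (n + 1))).image (fun m => ∑ e : E, m e * (e : ℕ))

lemma mem_bx {E : Finset ℕ} {n x : ℕ} :
    x ∈ bx E n ↔ ∃ m : E → ℕ, (∀ e, m e ≤ n) ∧ ∑ e : E, m e * (e : ℕ) = x := by
  unfold bx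
  simp only [Finset.mem_image, Fintype.mem_piFinset, Finset.mem_range, Nat.lt_succ_iff]

lemma card_bx (E : Finset ℕ) (n : ℕ) : (bx E n).card ≤ (n + 1) ^ E.card := by
  unfold bx
  refine Finset.card_image_le.trans ?_
  rw [Fintype.card_piFinset]
  simp

lemma zero_mem_bx (E : Finset ℕ) (n : ℕ) : 0 ∈ bx E n :=
  mem_bx.2 ⟨fun _ => 0, fun _ => Nat.zero_le _, by simp⟩

lemma bx_mono {E : Finset ℕ} {a b : ℕ} (h : a ≤ b) : bx E a ⊆ bx E b := by
  intro x hx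
  obtain ⟨m, hm, rfl⟩ := mem_bx.1 hx
  exact mem_bx.2 ⟨m, fun e => (hm e).trans h, rfl⟩

lemma add_mem_bx {E : Finset ℕ} {a b x y : ℕ} (hx : x ∈ bx E a) (hy : y ∈ bx E b) :
    x + y ∈ bx E (a + b) := by
  obtain ⟨m, hm, rfl⟩ := mem_bx.1 hx
  obtain ⟨m', hm', rfl⟩ := mem_bx.1 hy
  refine mem_bx.2 ⟨fun e => m e + m' e, fun e => Nat.add_le_add (hm e) (hm' e), ?_⟩
  rw [← Finset.sum_add_distrib]
  exact Finset.sum_congr rfl fun e _ => Nat.add_mul _ _ _

lemma mem_bx_one {E : Finset ℕ} {e : ℕ} (he : e ∈ E) : e ∈ bx E 1 := by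
  classical
  refine mem_bx.2 ⟨fun e' => if (e' : ℕ) = e then 1 else 0, fun e' => by beta_reduce; split_ifs <;> simp, ?_⟩
  rw [Finset.sum_eq_single (⟨e, he⟩ : E)]
  · simp
  · intro b _ hb
    beta_reduce
    rw [if_neg (fun h => hb (Subtype.ext h)), zero_mul]
  · intro h
    exact absurd (Finset.mem_univ _) h

lemma le_of_mem_bx {E : Finset ℕ} {n x D : ℕ} (hx : x ∈ bx E n) (hE : ∀ e ∈ E, e ≤ D) :
    x ≤ n * (E.card * D) := by
  obtain ⟨m, hm, rfl⟩ := mem_bx.1 hx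
  calc ∑ e : E, m e * (e : ℕ) ≤ ∑ _e : E, n * D :=
        Finset.sum_le_sum fun e _ => Nat.mul_le_mul (hm e) (hE e e.2)
    _ = n * (E.card * D) := by
        rw [Finset.sum_const, Finset.card_univ, Fintype.card_coe, smul_eq_mul]
        ring

/-- slow growth somewhere -/
lemma exists_slow (g : ℕ → ℕ) (hg0 : 1 ≤ g 0) (r t₀ : ℕ) (δ : ℝ) (hδ1 : δ < 1)
    (h : (g (t₀ * r) : ℝ) < (1 / (1 - δ)) ^ t₀) :
    ∃ t, t < t₀ ∧ (1 - δ) * (g ((t + 1) * r) : ℝ) ≤ g (t * r) := by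
  by_contra hcon
  push Not at hcon
  have h1 : 0 < 1 - δ := by linarith
  have key : ∀ t, t ≤ t₀ → (1 / (1 - δ)) ^ t ≤ (g (t * r) : ℝ) := by
    intro t
    induction t with
    | zero =>
      intro _
      simp only [pow_zero, zero_mul]
      exact_mod_cast hg0
    | succ t ih =>
      intro ht
      have h2 := ih (by omega)
      have h3 := hcon t (by omega)
      have h4 : (g (t * r) : ℝ) / (1 - δ) ≤ g ((t + 1) * r) := by
        rw [div_le_iff₀ h1]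
        linarith
      calc (1 / (1 - δ)) ^ (t + 1) = (1 / (1 - δ)) ^ t / (1 - δ) := by
            rw [pow_succ]; ring
        _ ≤ (g (t * r) : ℝ) / (1 - δ) := by gcongr
        _ ≤ _ := h4
  exact absurd (key t₀ le_rfl) (not_le.2 h)

end Pool.Agent.J6H31.LM
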