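import Pool.Agent.H252R3.Leh.Res

/-!
# Irreducible polynomials dividing a polynomial with few terms and small coefficients
-/

set_option autoImplicit false

namespace Pool.Agent.J6H31.LM

open Polynomial Pool.Agent.H252R3.Leh

/-- the sum of the absolute values of the coefficients -/
noncomputable def l1 (G : ℤ[X]) : ℕ := ∑ i ∈ G.support, (G.coeff i).natAbs

/-- no zero of `f` is zero or a root of unity -/
def NoCyc (f : ℤ[X]) : Prop := ∀ z : ℂ, (cx f).eval z = 0 → z ≠ 0 ∧ ∀ n : ℕ, 0 < n → z ^ n ≠ 1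

lemma eval_le (G : ℤ[X]) (Δ : ℕ) (hG : G.natDegree ≤ Δ) (z : ℂ) :
    ‖(cx G).eval z‖ ≤ l1 G * (max 1 ‖z‖) ^ Δ := by
  have e : (cx G).eval z = ∑ i ∈ G.support, ((G.coeff i : ℤ) : ℂ) * z ^ i := by
    rw [cx, eval_map, eval₂_eq_sum, Polynomial.sum]
    rfl
  rw [e]
  refine (norm_sum_le _ _).trans ?_
  unfold l1
  push_cast
  rw [Finset.sum_mul]
  refine Finset.sum_le_sum fun i hi => ?_
  rw [norm_mul, Complex.norm_intCast, norm_pow]
  have h1 : |((G.coeff i : ℤ) : ℝ)| = ((G.coeff i).natAbs : ℝ) := by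
    rw [Nat.cast_natAbs]; simp
  rw [h1, Nat.cast_natAbs]
  have h2 : i ≤ Δ := (le_natDegree_of_mem_supp i hi).trans hG
  have h3 : ‖z‖ ^ i ≤ (max 1 ‖z‖) ^ Δ :=
    (pow_le_pow_left₀ (norm_nonneg _) (le_max_right _ _) i).trans
      (pow_le_pow_right₀ (le_max_left _ _) h2)
  gcongr

lemma supp_expand (G : ℤ[X]) (m : ℕ) (hm : 0 < m) :
    (expand ℤ m G).support = G.support.image (fun i => i * m) := by
  classical
  ext n
  rw [mem_support_iff, coeff_expand hm, Finset.mem_image]
  constructor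
  · intro h
    split_ifs at h with h1
    · exact ⟨n / m, mem_support_iff.2 h, Nat.div_mul_cancel h1⟩
    · exact absurd rfl h
  · rintro ⟨i, hi, rfl⟩
    rw [if_pos (dvd_mul_left _ _), Nat.mul_div_cancel _ hm]
    exact mem_support_iff.1 hi

lemma l1_expand (G : ℤ[X]) (m : ℕ) (hm : 0 < m) : l1 (expand ℤ m G) = l1 G := by
  classical
  unfold l1
  rw [supp_expand G m hm, Finset.sum_image]
  · refine Finset.sum_congr rfl fun i _ => ?_
    rw [coeff_expand_mul hm]
  · intro i _ j _ h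
    exact Nat.eq_of_mul_eq_mul_right hm h

lemma dvd_of_R_eq_zero {f G : ℤ[X]} (hf : f.Monic) (hi : Irreducible f) (h : R f G = 0) :
    f ∣ G := by
  by_contra hnd
  have hG : G ≠ 0 := by
    rintro rfl
    exact hnd (dvd_zero _)
  exact R_ne_zero f G hf hi hG hnd h

lemma exists_prog {f G : ℤ[X]} (hf : f.Monic) (hi : Irreducible f) (hc : NoCyc f) (hG : G ≠ 0)
    (P : ℕ) (hP : 0 < P) : ∃ j < G.support.card, R f (expand ℤ (1 + P * j) G) ≠ 0 := by
  classical
  by_contra hcon
  push Not at hcon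
  have hd1 : 1 ≤ f.natDegree := by
    by_contra h
    have h0 : f.natDegree = 0 := by omega
    have h1 : f = 1 := hf.natDegree_eq_zero.mp h0
    exact hi.not_isUnit (h1 ▸ isUnit_one)
  have hdc : (cx f).degree ≠ 0 := by
    have h1 : (cx f).natDegree = f.natDegree := hf.natDegree_map _
    intro h
    have h2 : (cx f).natDegree = 0 := natDegree_eq_zero_iff_degree_le_zero.mpr h.le
    omega
  obtain ⟨α, hα⟩ := IsAlgClosed.exists_root (cx f) hdc
  obtain ⟨hα0, hα1⟩ := hc α hα
  set k := G.support.card with hk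
  let e : Fin k ≃ G.support := G.support.equivFin.symm
  let v : Fin k → ℂ := fun i => α ^ (P * (e i : ℕ))
  let w : Fin k → ℂ := fun i => ((G.coeff (e i) : ℤ) : ℂ) * α ^ (e i : ℕ)
  have hv : Function.Injective v := by
    have key : ∀ a b : ℕ, a < b → α ^ (P * a) ≠ α ^ (P * b) := by
      intro a b hab h
      have h1 : α ^ (P * b) = α ^ (P * a) * α ^ (P * (b - a)) := by
        rw [← pow_add, ← Nat.mul_add]
        congr 2
        omega
      rw [h1] at h
      have h2 : α ^ (P * (b - a)) = 1 := by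
        have h3 : α ^ (P * a) ≠ 0 := pow_ne_zero _ hα0
        have h4 : α ^ (P * a) * 1 = α ^ (P * a) * α ^ (P * (b - a)) := by rw [mul_one]; exact h
        exact (mul_left_cancel₀ h3 h4).symm
      refine hα1 _ ?_ h2
      have : 0 < b - a := by omega
      positivity
    intro i j hij
    have h1 : (e i : ℕ) = (e j : ℕ) := by
      rcases lt_trichotomy (e i : ℕ) (e j : ℕ) with h | h | h
      · exact absurd hij (key _ _ h)
      · exact h
      · exact absurd hij.symm (key _ _ h)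
    exact e.injective (Subtype.ext h1)
  have hdet : (Matrix.vandermonde v).det ≠ 0 := Matrix.det_vandermonde_ne_zero_iff.2 hv
  have hw : Matrix.vecMul w (Matrix.vandermonde v) = 0 := by
    funext j
    rw [Matrix.vecMul, dotProduct, Pi.zero_apply]
    have h1 := hcon j j.2
    have h2 := dvd_of_R_eq_zero hf hi h1
    have h3 : cx f ∣ cx (expand ℤ (1 + P * j) G) := Polynomial.map_dvd _ h2
    have h4 : (cx (expand ℤ (1 + P * j) G)).eval α = 0 := IsRoot.dvd hα h3
    rw [cx, map_expand, expand_eval, eval_map, eval₂_eq_sum, Polynomial.sum] at h4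
    rw [← h4]
    rw [← Finset.sum_coe_sort G.support, ← Equiv.sum_comp e]
    refine Finset.sum_congr rfl fun i _ => ?_
    rw [Matrix.vandermonde_apply]
    simp only [w, v]
    rw [← pow_mul, mul_assoc, ← pow_add, ← pow_mul]
    congr 2
    ring
  have hw0 := Matrix.eq_zero_of_vecMul_eq_zero hdet hw
  have hk0 : 0 < k := Finset.card_pos.2 (support_nonempty.2 hG)
  have h5 := congrFun hw0 ⟨0, hk0⟩
  simp only [w, Pi.zero_apply] at h5
  rcases mul_eq_zero.1 h5 with h6 | h6
  · have h7 : G.coeff (e ⟨0, hk0⟩) = 0 := by exact_mod_cast h6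
    exact (mem_support_iff.1 (e ⟨0, hk0⟩).2) h7
  · exact pow_ne_zero _ hα0 h6

/-- **Irreducible factors of polynomials with few terms and small coefficients.** -/
theorem bad {f G : ℤ[X]} (hf : f.Monic) (hi : Irreducible f) (hc : NoCyc f) (hG : G ≠ 0)
    (hfG : f ∣ G) (k Λ Δ : ℕ) (hk : G.support.card ≤ k) (hΛ : l1 G ≤ Λ) (hΛ0 : 0 < Λ)
    (hΔ : G.natDegree ≤ Δ) :
    f.natDegree * Real.log 2 ≤ ((1 + (2 * Λ).factorial * k) * Δ : ℕ) *
      Real.log (cx f).mahlerMeasure := by
  classical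
  obtain ⟨j, hj, hR⟩ := exists_prog hf hi hc hG (2 * Λ).factorial (Nat.factorial_pos _)
  set P := (2 * Λ).factorial with hP
  set m₀ := 1 + P * j with hm₀
  have hM1 : 1 ≤ (cx f).mahlerMeasure := one_le_mahler f hf
  have hlM : 0 ≤ Real.log (cx f).mahlerMeasure := Real.log_nonneg hM1
  -- the smallest divisor
  have hex : ∃ m, 0 < m ∧ m ∣ m₀ ∧ R f (expand ℤ m G) ≠ 0 := ⟨m₀, by omega, dvd_rfl, hR⟩
  obtain ⟨hm0, hmd, hmR⟩ := Nat.find_spec hex
  set m := Nat.find hex with hm
  have hm1 : m ≠ 1 := by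
    intro h1
    rw [h1] at hmR
    apply hmR
    have e : expand ℤ 1 G = G := expand_one G
    rw [e]
    by_contra h2
    obtain ⟨w, hw⟩ := hfG
    -- `R f G = R f f * R f w = 0`
    have h3 : R f f = 0 := by
      have h4 := R_cast f f hf
      have hd1 : (cx f).roots ≠ 0 := by
        intro h5
        have h6 : Multiset.card (cx f).roots = f.natDegree := by
          rw [← hf.natDegree_map (Int.castRingHom ℂ)]
          exact (IsAlgClosed.splits (cx f)).natDegree_eq_card_roots.symm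
        rw [h5, Multiset.card_zero] at h6
        have h7 : f = 1 := hf.natDegree_eq_zero.mp h6.symm
        exact hi.not_isUnit (h7 ▸ isUnit_one)
      obtain ⟨a, ha⟩ := Multiset.exists_mem_of_ne_zero hd1
      have h5 : ((cx f).roots.map (fun z => (cx f).eval z)).prod = 0 :=
        Multiset.prod_eq_zero (Multiset.mem_map.mpr ⟨a, ha, (mem_roots'.1 ha).2⟩)
      rw [h5] at h4
      exact_mod_cast h4
    apply h2
    rw [hw, R_mul f _ _ hf, h3, zero_mul]
  set ℓ := m.minFac with hℓ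
  have hℓp : ℓ.Prime := Nat.minFac_prime hm1
  have : Fact ℓ.Prime := ⟨hℓp⟩
  obtain ⟨m', hm'⟩ : ℓ ∣ m := Nat.minFac_dvd m
  have hm'0 : 0 < m' := by
    rcases Nat.eq_zero_or_pos m' with h | h
    · rw [h, mul_zero] at hm'; omega
    · exact h
  have hm'lt : m' < m := by
    rw [hm']
    have := hℓp.two_le
    nlinarith
  have hℓ2 : 2 * Λ < ℓ := by
    by_contra h
    push Not at h
    have h1 : ℓ ∣ P := Nat.dvd_factorial hℓp.pos h
    have h2 : ℓ ∣ m₀ := (Dvd.intro _ hm'.symm).trans hmd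
    rw [hm₀] at h2
    have h3 : ℓ ∣ 1 := (Nat.dvd_add_left (h1.mul_right j)).1 h2
    exact hℓp.one_lt.ne' (Nat.dvd_one.1 h3)
  have hz : R f (expand ℤ m' G) = 0 := by
    by_contra h
    exact Nat.find_min hex hm'lt ⟨hm'0, (Dvd.intro_left _ hm'.symm).trans hmd, h⟩
  have hdvd := dvd_of_R_eq_zero hf hi hz
  have hdvd2 : (f.map (Int.castRingHom (ZMod ℓ))) ∣ (expand ℤ m G).map (Int.castRingHom (ZMod ℓ)) := by
    have e1 : expand ℤ m G = expand ℤ ℓ (expand ℤ m' G) := by
      rw [← expand_mul, ← hm']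
    rw [e1, map_expand, ZMod.expand_card]
    exact (Polynomial.map_dvd _ hdvd).trans (dvd_pow_self _ hℓp.ne_zero)
  have h1 := pow_dvd_R ℓ f (expand ℤ m G) hf _ dvd_rfl hdvd2
  rw [hf.natDegree_map] at h1
  have h2 := Int.le_of_dvd (abs_pos.mpr hmR) ((dvd_abs _ _).mpr h1)
  have h3 := R_le f (expand ℤ m G) hf Λ (by positivity) (m * Δ) (by
    intro z
    have h4 := eval_le (expand ℤ m G) (m * Δ) (by
      rw [natDegree_expand, mul_comm]
      exact Nat.mul_le_mul_left _ hΔ) z
    refine h4.trans ?_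
    rw [l1_expand G m hm0]
    gcongr)
  have h5 : ((ℓ : ℝ) ^ f.natDegree) ≤ |(R f (expand ℤ m G) : ℝ)| := by exact_mod_cast h2
  have h6 : ((2 * Λ : ℝ)) ^ f.natDegree ≤ Λ ^ f.natDegree * (cx f).mahlerMeasure ^ (m * Δ) := by
    refine le_trans ?_ (h5.trans h3)
    have : (2 * Λ : ℝ) ≤ ℓ := by exact_mod_cast hℓ2.le
    gcongr
  have hΛ1 : (0 : ℝ) < Λ := by exact_mod_cast hΛ0
  rw [mul_pow, mul_comm, mul_le_mul_iff_right₀ (by positivity)] at h6
  have h7 := Real.log_le_log (by positivity) h6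
  rw [Real.log_pow, Real.log_pow] at h7
  refine h7.trans ?_
  gcongr
  calc m ≤ m₀ := Nat.le_of_dvd (by omega) hmd
    _ = 1 + P * j := rfl
    _ ≤ 1 + P * k := by
        have : j ≤ k := by omega
        gcongr

end Pool.Agent.J6H31.LM
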