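import Pool.Agent.H252R3.Leh.Res

/-!
# The resultant of `f` and an element of the `r`-th power of the ideal `(p, H)`
-/

set_option autoImplicit false

namespace Pool.Agent.J6H31.LM

open Polynomial Pool.Agent.H252R3.Leh

/-- the polynomials whose reduction modulo `p` is divisible by `H` -/
noncomputable def JH (p : ℕ) (H : (ZMod p)[X]) : Ideal ℤ[X] :=
  (Ideal.span {H}).comap (mapRingHom (Int.castRingHom (ZMod p)))

variable {p : ℕ}

lemma mem_JH {H : (ZMod p)[X]} {g : ℤ[X]} :
    g ∈ JH p H ↔ H ∣ g.map (Int.castRingHom (ZMod p)) := by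
  unfold JH
  rw [Ideal.mem_comap, Ideal.mem_span_singleton]
  rfl

lemma C_dvd_of_map_zero (n : ℕ) {g : ℤ[X]} (h : g.map (Int.castRingHom (ZMod n)) = 0) :
    C (n : ℤ) ∣ g := by
  rw [Polynomial.C_dvd_iff_dvd_coeff]
  intro i
  have h1 := congrArg (fun q => q.coeff i) h
  simp only [coeff_map, coeff_zero, eq_intCast] at h1
  exact (ZMod.intCast_zmod_eq_zero_iff_dvd _ _).1 h1

lemma map_zero_of_C_dvd (n : ℕ) {g : ℤ[X]} (h : C (n : ℤ) ∣ g) :
    g.map (Int.castRingHom (ZMod n)) = 0 := by
  obtain ⟨w, rfl⟩ := h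
  rw [Polynomial.map_mul, Polynomial.map_C]
  simp

lemma p_mem_JH (H : (ZMod p)[X]) : C (p : ℤ) ∈ JH p H := by
  rw [mem_JH, map_zero_of_C_dvd p dvd_rfl]
  exact dvd_zero _

/-- elements of `JH` for a lift `h` of `H` -/
lemma JH_exists {h g : ℤ[X]} (hg : g ∈ JH p (h.map (Int.castRingHom (ZMod p)))) :
    ∃ w v : ℤ[X], g = C (p : ℤ) * w + h * v := by
  rw [mem_JH] at hg
  obtain ⟨q, hq⟩ := hg
  obtain ⟨v, hv⟩ := Polynomial.map_surjective (Int.castRingHom (ZMod p)) ZMod.intCast_surjective q
  have h1 : (g - h * v).map (Int.castRingHom (ZMod p)) = 0 := by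
    rw [Polynomial.map_sub, Polynomial.map_mul, hv, hq, sub_self]
  obtain ⟨w, hw⟩ := C_dvd_of_map_zero p h1
  exact ⟨w, v, by rw [← hw]; ring⟩

lemma pow_JH {h : ℤ[X]} (n : ℕ) {g : ℤ[X]}
    (hg : g ∈ (JH p (h.map (Int.castRingHom (ZMod p)))) ^ (n + 1)) :
    ∃ w v : ℤ[X], v ∈ (JH p (h.map (Int.castRingHom (ZMod p)))) ^ n ∧
      g = C ((p : ℤ) ^ (n + 1)) * w + h * v := by
  set J := JH p (h.map (Int.castRingHom (ZMod p))) with hJ
  induction n generalizing g with
  | zero =>
    rw [zero_add, pow_one] at hg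
    obtain ⟨w, v, rfl⟩ := JH_exists hg
    exact ⟨w, v, by simp, by simp⟩
  | succ n ih =>
    rw [pow_succ' J (n + 1)] at hg
    refine Submodule.mul_induction_on hg ?_ ?_
    · intro x hx y hy
      obtain ⟨w1, v1, hx1⟩ := JH_exists hx
      obtain ⟨w2, v2, hv2, hy1⟩ := ih hy
      refine ⟨w1 * w2, v1 * y + C (p : ℤ) * w1 * v2, ?_, ?_⟩
      · refine Ideal.add_mem _ (Ideal.mul_mem_left _ _ hy) ?_
        rw [pow_succ' J n]
        exact Ideal.mul_mem_mul (Ideal.mul_mem_right _ _ (p_mem_JH _)) hv2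
      · have e : x * y = C (p : ℤ) * w1 * y + h * (v1 * y) := by rw [hx1]; ring
        rw [e]
        nth_rewrite 1 [hy1]
        rw [pow_succ (p : ℤ) (n + 1), C_mul]
        ring
    · rintro x y ⟨w1, v1, h1, rfl⟩ ⟨w2, v2, h2, rfl⟩
      exact ⟨w1 + w2, v1 + v2, Ideal.add_mem _ h1 h2, by ring⟩

lemma C_dvd_of_monic_mul {h q : ℤ[X]} (hh : h.Monic) (n : ℕ) (hd : C (n : ℤ) ∣ h * q) :
    C (n : ℤ) ∣ q := by
  apply C_dvd_of_map_zero
  have h1 := map_zero_of_C_dvd n hd
  rw [Polynomial.map_mul] at h1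
  exact ((hh.map (Int.castRingHom (ZMod n))).mul_right_eq_zero_iff).1 h1

/-- `(J ^ (r + 1) : h) = J ^ r` -/
lemma colon_JH {h : ℤ[X]} (hh : h.Monic) (r : ℕ) {g : ℤ[X]}
    (hg : h * g ∈ (JH p (h.map (Int.castRingHom (ZMod p)))) ^ (r + 1)) :
    g ∈ (JH p (h.map (Int.castRingHom (ZMod p)))) ^ r := by
  obtain ⟨w, v, hv, hw⟩ := pow_JH r hg
  have h1 : h * (g - v) = C ((p : ℤ) ^ (r + 1)) * w := by
    rw [mul_sub, hw]; ring
  have h2 : C (((p ^ (r + 1) : ℕ) : ℤ)) ∣ h * (g - v) := by
    rw [h1]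
    push_cast
    exact dvd_mul_right _ _
  obtain ⟨u, hu⟩ := C_dvd_of_monic_mul hh _ h2
  have e : g = v + C ((p : ℤ) ^ (r + 1)) * u := by
    have : g = v + (g - v) := by ring
    rw [this, hu]
    push_cast
    ring
  rw [e]
  refine Ideal.add_mem _ hv (Ideal.mul_mem_right _ _ ?_)
  rw [C_pow, pow_succ]
  exact Ideal.mul_mem_right _ _ (Ideal.pow_mem_pow (p_mem_JH _) r)

/-- the additive subgroup of an ideal -/
noncomputable abbrev ag (I : Ideal ℤ[X]) : AddSubgroup ℤ[X] := I.toAddSubgroup

/-- multiplication -/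
noncomputable abbrev mu (h : ℤ[X]) : ℤ[X] →+ ℤ[X] := AddMonoidHom.mulLeft h

lemma range_mu (h : ℤ[X]) : (mu h).range = ag (Ideal.span {h}) := by
  ext x
  rw [AddMonoidHom.mem_range, Submodule.mem_toAddSubgroup, Ideal.mem_span_singleton]
  constructor
  · rintro ⟨y, rfl⟩
    exact dvd_mul_right _ _
  · rintro ⟨y, rfl⟩
    exact ⟨y, rfl⟩

/-- index of the sum of an ideal and a principal ideal -/
lemma index_sup (I : Ideal ℤ[X]) (h : ℤ[X]) :
    (ag I).index = ((ag I).comap (mu h)).index * (ag I ⊔ ag (Ideal.span {h})).index := by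
  rw [AddSubgroup.index_comap, range_mu, ← AddSubgroup.relIndex_mul_index
    (le_sup_left : ag I ≤ ag I ⊔ ag (Ideal.span {h}))]
  congr 1
  rw [sup_comm, AddSubgroup.relIndex_sup_right]

/-- the quotient by `(p ^ r, h)` -/
lemma index_mod {h : ℤ[X]} (hh : h.Monic) (r : ℕ) (hp : 0 < p) :
    (ag ((JH p (h.map (Int.castRingHom (ZMod p)))) ^ (r + 1)) ⊔ ag (Ideal.span {h})).index =
      p ^ ((r + 1) * h.natDegree) := by
  set q := p ^ (r + 1) with hq
  have hq0 : q ≠ 0 := by positivity
  have : NeZero q := ⟨hq0⟩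
  set hb := h.map (Int.castRingHom (ZMod q)) with hhb
  have hbm : hb.Monic := hh.map _
  let π : ℤ[X] →+ AdjoinRoot hb :=
    ((AdjoinRoot.mk hb).comp (mapRingHom (Int.castRingHom (ZMod q)))).toAddMonoidHom
  have hπ : ∀ g, π g = AdjoinRoot.mk hb (g.map (Int.castRingHom (ZMod q))) := fun g => rfl
  have hsurj : Function.Surjective π := by
    intro a
    obtain ⟨b, rfl⟩ := AdjoinRoot.mk_surjective a
    obtain ⟨g, rfl⟩ := Polynomial.map_surjective (Int.castRingHom (ZMod q))
      ZMod.intCast_surjective b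
    exact ⟨g, rfl⟩
  have hker : ag ((JH p (h.map (Int.castRingHom (ZMod p)))) ^ (r + 1)) ⊔ ag (Ideal.span {h}) =
      π.ker := by
    apply le_antisymm
    · refine sup_le ?_ ?_
      · intro g hg
        obtain ⟨w, v, _, rfl⟩ := pow_JH r hg
        rw [AddMonoidHom.mem_ker, hπ, AdjoinRoot.mk_eq_zero, Polynomial.map_add,
          Polynomial.map_mul, Polynomial.map_mul]
        have h1 : (C ((p : ℤ) ^ (r + 1))).map (Int.castRingHom (ZMod q)) = 0 := by
          apply map_zero_of_C_dvd
          rw [hq]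
          push_cast
          exact dvd_rfl
        rw [h1, zero_mul, zero_add]
        exact dvd_mul_right _ _
      · intro g hg
        rw [Submodule.mem_toAddSubgroup, Ideal.mem_span_singleton] at hg
        obtain ⟨v, rfl⟩ := hg
        rw [AddMonoidHom.mem_ker, hπ, AdjoinRoot.mk_eq_zero, Polynomial.map_mul]
        exact dvd_mul_right _ _
    · intro g hg
      rw [AddMonoidHom.mem_ker, hπ, AdjoinRoot.mk_eq_zero] at hg
      obtain ⟨c, hc⟩ := hg
      obtain ⟨v, rfl⟩ := Polynomial.map_surjective (Int.castRingHom (ZMod q))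
        ZMod.intCast_surjective c
      have h1 : (g - h * v).map (Int.castRingHom (ZMod q)) = 0 := by
        rw [Polynomial.map_sub, Polynomial.map_mul, hc, sub_self]
      obtain ⟨w, hw⟩ := C_dvd_of_map_zero q h1
      have e : g = C (q : ℤ) * w + h * v := by rw [← hw]; ring
      rw [e]
      refine AddSubgroup.add_mem_sup ?_ ?_
      · rw [Submodule.mem_toAddSubgroup]
        refine Ideal.mul_mem_right _ _ ?_
        rw [hq]
        push_cast
        rw [C_pow]
        have := Ideal.pow_mem_pow (p_mem_JH (p := p) (h.map (Int.castRingHom (ZMod p)))) (r + 1)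
        simpa using this
      · rw [Submodule.mem_toAddSubgroup, Ideal.mem_span_singleton]
        exact dvd_mul_right _ _
  rw [hker]
  have h1 : π.ker.index = Nat.card (AdjoinRoot hb) := by
    rw [AddSubgroup.index]
    exact Nat.card_congr (QuotientAddGroup.quotientKerEquivOfSurjective π hsurj).toEquiv
  rw [h1]
  by_cases hq1 : q = 1
  · -- trivial ring
    have hpp : p = 1 := by
      rw [hq] at hq1
      rcases Nat.pow_eq_one.1 hq1 with h2 | h2
      · exact h2
      · omega
    have : Subsingleton (ZMod q) := by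
      rw [hq1]
      infer_instance
    have : Subsingleton (AdjoinRoot hb) := by
      have : Subsingleton (ZMod q)[X] := inferInstance
      exact (AdjoinRoot.mk_surjective (g := hb)).subsingleton
    rw [hpp, one_pow]
    exact Nat.card_unique
  · have : Nontrivial (ZMod q) := by
      have h2 : 1 < q := by omega
      have : Fact (1 < q) := ⟨h2⟩
      infer_instance
    have e := (AdjoinRoot.powerBasis' hbm).basis.equivFun
    rw [Nat.card_congr e.toEquiv, Nat.card_fun, Nat.card_zmod, Nat.card_eq_fintype_card,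
      Fintype.card_fin, AdjoinRoot.powerBasis'_dim, hhb, hh.natDegree_map]
    rw [hq, ← pow_mul]

/-- the indices of the powers are finite, and the recursion -/
lemma index_pow {h : ℤ[X]} (hh : h.Monic) (hp : 0 < p) (r : ℕ) :
    (ag ((JH p (h.map (Int.castRingHom (ZMod p)))) ^ (r + 1))).index =
      (ag ((JH p (h.map (Int.castRingHom (ZMod p)))) ^ r)).index *
        p ^ ((r + 1) * h.natDegree) := by
  rw [index_sup _ h, index_mod hh r hp]
  congr 2
  ext g
  rw [AddSubgroup.mem_comap, Submodule.mem_toAddSubgroup, Submodule.mem_toAddSubgroup]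
  constructor
  · exact fun hg => colon_JH hh r hg
  · intro hg
    change h * g ∈ _
    rw [pow_succ']
    refine Ideal.mul_mem_mul ?_ hg
    rw [mem_JH]

lemma index_ne_zero {h : ℤ[X]} (hh : h.Monic) (hp : 0 < p) (r : ℕ) :
    (ag ((JH p (h.map (Int.castRingHom (ZMod p)))) ^ r)).index ≠ 0 := by
  induction r with
  | zero =>
    rw [pow_zero, Ideal.one_eq_top]
    simp
  | succ r ih =>
    rw [index_pow hh hp r]
    exact mul_ne_zero ih (by positivity)

/-- the quotient by `J ^ r` and an element of `J` is large -/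
lemma dvd_index {h : ℤ[X]} (hh : h.Monic) (hp : 0 < p) (r : ℕ) {f : ℤ[X]}
    (hf : f ∈ JH p (h.map (Int.castRingHom (ZMod p)))) :
    p ^ (r * h.natDegree) ∣
      (ag ((JH p (h.map (Int.castRingHom (ZMod p)))) ^ r) ⊔ ag (Ideal.span {f})).index := by
  rcases Nat.eq_zero_or_pos r with rfl | hr
  · simp
  obtain ⟨r, rfl⟩ : ∃ n, r = n + 1 := ⟨r - 1, by omega⟩
  set J := JH p (h.map (Int.castRingHom (ZMod p))) with hJ
  have h1 := index_sup (J ^ (r + 1)) f
  rw [index_pow hh hp r] at h1
  have hle : ag (J ^ r) ≤ (ag (J ^ (r + 1))).comap (mu f) := by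
    intro g hg
    rw [AddSubgroup.mem_comap, Submodule.mem_toAddSubgroup]
    change f * g ∈ _
    rw [pow_succ']
    exact Ideal.mul_mem_mul hf hg
  obtain ⟨c, hc⟩ := AddSubgroup.index_dvd_of_le hle
  rw [hc] at h1
  have h0 := index_ne_zero (p := p) hh hp r
  rw [← hJ, hc] at h0
  have h2 : ((ag (J ^ (r + 1))).comap (mu f)).index ≠ 0 := left_ne_zero_of_mul h0
  have h3 : c * p ^ ((r + 1) * h.natDegree) = (ag (J ^ (r + 1)) ⊔ ag (Ideal.span {f})).index := by
    apply Nat.eq_of_mul_eq_mul_left (Nat.pos_of_ne_zero h2)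
    rw [← h1]
    ring
  rw [← h3]
  exact dvd_mul_left _ _

/-- **The resultant with elements of the `r`-th power of the ideal `(p, H)`.** -/
theorem pow_dvd_R' [Fact p.Prime] (f G : ℤ[X]) (hf : f.Monic) (H : (ZMod p)[X])
    (hH : H ∣ f.map (Int.castRingHom (ZMod p))) (r : ℕ) (hG : G ∈ (JH p H) ^ r) :
    (p : ℤ) ^ (r * H.natDegree) ∣ R f G := by
  classical
  have hp : 0 < p := (Fact.out : p.Prime).pos
  by_cases hR : R f G = 0
  · rw [hR]; exact dvd_zero _
  have hfm : (f.map (Int.castRingHom (ZMod p))).Monic := hf.map _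
  have hH0 : H ≠ 0 := by
    rintro rfl
    rw [zero_dvd_iff] at hH
    exact hfm.ne_zero hH
  -- a monic lift
  set H' := normalize H with hH'
  have hH'm : H'.Monic := Polynomial.monic_normalize hH0
  have hassoc : Associated H' H := normalize_associated H
  have hJ : JH p H = JH p H' := by
    ext g
    rw [mem_JH, mem_JH]
    exact hassoc.symm.dvd_iff_dvd_left
  have hdeg : H'.natDegree = H.natDegree := by
    rw [hH', ← natDegree_eq_of_degree_eq (degree_eq_degree_of_associated hassoc)]
  obtain ⟨h, hh, _, hhm⟩ := Polynomial.lifts_and_natDegree_eq_and_monic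
    (f := Int.castRingHom (ZMod p)) (p := H') (by
      rw [Polynomial.lifts_iff_coeff_lifts]
      intro n
      exact ⟨(ZMod.intCast_surjective (H'.coeff n)).choose,
        by simpa using (ZMod.intCast_surjective (H'.coeff n)).choose_spec⟩) hH'm
  have hhd : h.natDegree = H.natDegree := by
    rw [← hdeg, ← hh, hhm.natDegree_map]
  rw [hJ, ← hh] at hG
  have hfJ : f ∈ JH p (h.map (Int.castRingHom (ZMod p))) := by
    rw [mem_JH, hh]
    exact hassoc.dvd.trans hH
  have hmain := dvd_index hhm hp r hfJ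
  set J := JH p (h.map (Int.castRingHom (ZMod p))) with hJd
  rw [hhd] at hmain
  -- the resultant as an index
  set m := f.natDegree with hm
  set n := G.natDegree with hn
  have hf' : f.natDegree ≤ m := le_rfl
  have hG' : G.natDegree ≤ n := le_rfl
  have hR' : resultant f G m n ≠ 0 := hR
  let b₁ := (((degreeLT.basis ℤ m).prod (degreeLT.basis ℤ n)).reindex finSumFinEquiv)
  let b₂ := degreeLT.basis ℤ (m + n)
  have hmat : (sylvesterMap f G hf' hG').toMatrix b₁ b₂ = sylvester f G m n :=
    toMatrix_sylvesterMap' f G hf' hG'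
  have hinj : Function.Injective (sylvesterMap f G hf' hG') := by
    have h3 := adjSylvester_comp_sylveserMap f G hf' hG'
    intro x y hxy
    have h4 : (f.resultant G m n) • x = (f.resultant G m n) • y := by
      have hx := LinearMap.congr_fun h3 x
      have hy := LinearMap.congr_fun h3 y
      simp only [LinearMap.comp_apply, LinearMap.smul_apply, LinearMap.id_apply] at hx hy
      rw [← hx, ← hy, hxy]
    exact smul_right_injective _ hR' h4
  let N : Submodule ℤ (degreeLT ℤ (m+n)) := LinearMap.range (sylvesterMap f G hf' hG')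
  let bN : Module.Basis (Fin (m + n)) ℤ N := b₁.map (LinearEquiv.ofInjective _ hinj)
  have hcard := Submodule.natAbs_det_basis_change b₂ N bN
  have hdet : b₂.det ((↑) ∘ bN) = resultant f G m n := by
    rw [Module.Basis.det_apply, resultant, ← hmat]
    congr 1
    ext i j
    rw [Module.Basis.toMatrix_apply, LinearMap.toMatrix_apply]
    rfl
  rw [hdet] at hcard
  let ι : degreeLT ℤ (m + n) →+ ℤ[X] := (degreeLT ℤ (m + n)).subtype.toAddMonoidHom
  set K : AddSubgroup ℤ[X] := ag (J ^ r) ⊔ ag (Ideal.span {f}) with hK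
  have hle : N.toAddSubgroup ≤ K.comap ι := by
    intro x hx
    obtain ⟨⟨A, B⟩, rfl⟩ := (hx : x ∈ N)
    rw [AddSubgroup.mem_comap]
    change ((sylvesterMap f G hf' hG') (A, B) : ℤ[X]) ∈ K
    rw [sylvesterMap_apply_coe, add_comm]
    refine AddSubgroup.add_mem_sup ?_ ?_
    · rw [Submodule.mem_toAddSubgroup]
      exact Ideal.mul_mem_right _ _ hG
    · rw [Submodule.mem_toAddSubgroup, Ideal.mem_span_singleton]
      exact dvd_mul_right _ _
  have hidx : (K.comap ι).index = K.index := by
    rw [AddSubgroup.index_comap]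
    have htop : ι.range ⊔ K = ⊤ := by
      rw [eq_top_iff]
      intro g _
      have e : g = g %ₘ f + f * (g /ₘ f) := (modByMonic_add_div g f).symm
      rw [e]
      refine AddSubgroup.add_mem_sup ?_ ?_
      · have h5 : g %ₘ f ∈ degreeLT ℤ (m + n) := by
          rw [mem_degreeLT]
          calc (g %ₘ f).degree < f.degree := degree_modByMonic_lt _ hf
            _ = m := by rw [degree_eq_natDegree hf.ne_zero]
            _ ≤ _ := by exact_mod_cast Nat.le_add_right _ _
        exact ⟨⟨_, h5⟩, rfl⟩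
      · refine (le_sup_right : ag (Ideal.span {f}) ≤ K) ?_
        rw [Submodule.mem_toAddSubgroup, Ideal.mem_span_singleton]
        exact dvd_mul_right _ _
    rw [← AddSubgroup.relIndex_sup_right, htop, AddSubgroup.relIndex_top_right]
  have hdvd : K.index ∣ N.toAddSubgroup.index := by
    rw [← hidx]
    exact AddSubgroup.index_dvd_of_le hle
  have hN : N.toAddSubgroup.index = (resultant f G m n).natAbs := by
    rw [hcard]; rfl
  rw [hN] at hdvd
  have := Int.natCast_dvd.mpr (hmain.trans hdvd)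
  exact_mod_cast this

end Pool.Agent.J6H31.LM
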