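import Mathlib

/-!
# Small polynomials in powers of the ideal `(p, T)` by the pigeonhole principle
-/

set_option autoImplicit false

namespace Pool.Agent.J6H31.LM

open Polynomial

/-- `∑_{j < r} p ^ (r - 1 - j) T ^ (j + 1) b_j` -/
noncomputable def Phi (p : ℕ) (T : ℤ[X]) : ℕ → (ℕ → ℤ[X]) → ℤ[X]
  | 0, _ => 0
  | (r + 1), b => C (p : ℤ) * Phi p T r b + T ^ (r + 1) * b r

variable {p : ℕ} {T : ℤ[X]}

lemma Phi_congr {r : ℕ} {b b' : ℕ → ℤ[X]} (h : ∀ j < r, b j = b' j) :
    Phi p T r b = Phi p T r b' := by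
  induction r with
  | zero => rfl
  | succ r ih =>
    rw [Phi, Phi, ih fun j hj => h j (by omega), h r (by omega)]

lemma Phi_mem {J : Ideal ℤ[X]} (hp : C (p : ℤ) ∈ J) (hT : T ∈ J) (r : ℕ) (b : ℕ → ℤ[X]) :
    Phi p T r b ∈ J ^ r := by
  induction r with
  | zero => simp [Phi]
  | succ r ih =>
    rw [Phi]
    refine Ideal.add_mem _ ?_ ?_
    · rw [pow_succ, mul_comm (J ^ r)]
      exact Ideal.mul_mem_mul hp ih
    · exact Ideal.mul_mem_right _ _ (Ideal.pow_mem_pow hT _)

lemma small_eq_zero {c : ℤ[X]} (hc : ∀ i, |c.coeff i| < p) (h : C (p : ℤ) ∣ c) : c = 0 := by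
  ext i
  rw [Polynomial.C_dvd_iff_dvd_coeff] at h
  rw [coeff_zero]
  exact Int.eq_zero_of_abs_lt_dvd (h i) (hc i)

lemma Phi_inj [hp : Fact p.Prime] (hT : T.map (Int.castRingHom (ZMod p)) ≠ 0) (r : ℕ)
    (b b' : ℕ → ℤ[X]) (hb : ∀ j < r, ∀ i, |(b j - b' j).coeff i| < p)
    (h : C ((p : ℤ) ^ r) ∣ Phi p T r b - Phi p T r b') : ∀ j < r, b j = b' j := by
  have hp0 : (p : ℤ) ≠ 0 := by exact_mod_cast hp.out.ne_zero
  induction r with
  | zero => intro j hj; omega
  | succ r ih =>
    rw [Phi, Phi] at h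
    have e1 : C (p : ℤ) * Phi p T r b + T ^ (r + 1) * b r -
        (C (p : ℤ) * Phi p T r b' + T ^ (r + 1) * b' r) =
        C (p : ℤ) * (Phi p T r b - Phi p T r b') + T ^ (r + 1) * (b r - b' r) := by ring
    rw [e1] at h
    have h1 : C (p : ℤ) ∣ T ^ (r + 1) * (b r - b' r) := by
      have h2 : C (p : ℤ) ∣ C (p : ℤ) * (Phi p T r b - Phi p T r b') + T ^ (r + 1) * (b r - b' r) := by
        refine Dvd.dvd.trans ?_ h
        rw [pow_succ, C_mul]
        exact dvd_mul_left _ _
      exact (dvd_add_right (dvd_mul_right _ _)).1 h2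
    have hprime : Prime (C (p : ℤ)) := by
      rw [Polynomial.prime_C_iff]
      exact Nat.prime_iff_prime_int.1 hp.out
    have hTn : ¬ C (p : ℤ) ∣ T := by
      intro h2
      apply hT
      obtain ⟨w, rfl⟩ := h2
      rw [Polynomial.map_mul, Polynomial.map_C]
      simp
    have h3 : C (p : ℤ) ∣ b r - b' r := by
      rcases hprime.dvd_or_dvd h1 with h4 | h4
      · exact absurd (hprime.dvd_of_dvd_pow h4) hTn
      · exact h4
    have h4 : b r - b' r = 0 := small_eq_zero (hb r (by omega)) h3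
    rw [h4, mul_zero, add_zero, pow_succ, mul_comm ((p : ℤ) ^ r), C_mul] at h
    have hC0 : C (p : ℤ) ≠ 0 := by
      rw [Ne, C_eq_zero]; exact hp0
    have h5 := (mul_dvd_mul_iff_left hC0).1 h
    have h6 := ih (fun j hj => hb j (by omega)) h5
    intro j hj
    rcases Nat.lt_succ_iff_lt_or_eq.1 hj with h7 | h7
    · exact h6 j h7
    · rw [h7]; exact sub_eq_zero.1 h4

lemma Phi_support {S S' : Finset ℕ} {r : ℕ} {b : ℕ → ℤ[X]} (hb : ∀ j < r, (b j).support ⊆ S)
    (hS : ∀ j, 1 ≤ j → j ≤ r → ∀ x ∈ S, ∀ y ∈ (T ^ j).support, x + y ∈ S') :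
    (Phi p T r b).support ⊆ S' := by
  induction r with
  | zero => simp [Phi]
  | succ r ih =>
    rw [Phi]
    refine support_add.trans (Finset.union_subset ?_ ?_)
    · refine Finset.Subset.trans ?_ (ih (fun j hj => hb j (by omega))
        fun j hj hj' => hS j hj (by omega))
      intro i hi
      rw [mem_support_iff, coeff_C_mul] at hi
      rw [mem_support_iff]
      exact right_ne_zero_of_mul hi
    · intro i hi
      rw [mem_support_iff, coeff_mul] at hi
      obtain ⟨x, hx, hx0⟩ := Finset.exists_ne_zero_of_sum_ne_zero hi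
      rw [Finset.HasAntidiagonal.mem_antidiagonal] at hx
      rw [← hx, add_comm]
      refine hS (r + 1) (by omega) le_rfl _ (hb r (by omega) ?_) _ ?_
      · rw [mem_support_iff]; exact right_ne_zero_of_mul hx0
      · rw [mem_support_iff]; exact left_ne_zero_of_mul hx0

/-- the polynomial with the coefficients `c x` at the elements `x` of `S` -/
noncomputable def poly {S : Finset ℕ} (c : S → ℤ) : ℤ[X] := ∑ x : S, monomial (x : ℕ) (c x)

lemma coeff_poly {S : Finset ℕ} (c : S → ℤ) (i : ℕ) :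
    (poly c).coeff i = if h : i ∈ S then c ⟨i, h⟩ else 0 := by
  classical
  unfold poly
  simp only [finsetSum_coeff, coeff_monomial]
  by_cases h : i ∈ S
  · rw [dif_pos h, Finset.sum_eq_single (⟨i, h⟩ : S)]
    · simp
    · intro b _ hb
      rw [if_neg]
      intro h2
      exact hb (Subtype.ext h2)
    · intro h2
      exact absurd (Finset.mem_univ _) h2
  · rw [dif_neg h]
    apply Finset.sum_eq_zero
    intro b _
    rw [if_neg]
    intro h2
    exact h (h2 ▸ b.2)

lemma support_poly {S : Finset ℕ} (c : S → ℤ) : (poly c).support ⊆ S := by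
  intro i hi
  rw [mem_support_iff, coeff_poly] at hi
  by_contra h
  rw [dif_neg h] at hi
  exact hi rfl

/-- **Pigeonhole principle.** -/
theorem pig [hp : Fact p.Prime] (hT : T.map (Int.castRingHom (ZMod p)) ≠ 0) (r s : ℕ)
    (S S' : Finset ℕ)
    (hS : ∀ j, 1 ≤ j → j ≤ r → ∀ x ∈ S, ∀ y ∈ (T ^ j).support, x + y ∈ S') (hsr : s ≤ r)
    (hcard : (r - s) * S'.card < r * S.card) :
    ∃ G : ℤ[X], G ≠ 0 ∧ G.support ⊆ S' ∧ (∀ i, |G.coeff i| < (p : ℤ) ^ s) ∧
      ∀ J : Ideal ℤ[X], C (p : ℤ) ∈ J → T ∈ J → G ∈ J ^ r := by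
  classical
  have hp1 : 1 < p := hp.out.one_lt
  have hp0 : 0 < p := by omega
  set m : ℤ := (p : ℤ) ^ r with hm
  have hm0 : 0 < m := by positivity
  -- the digits
  let B : (Fin r → S → Fin p) → ℕ → ℤ[X] := fun b j =>
    if h : j < r then poly (fun x => ((b ⟨j, h⟩ x : ℕ) : ℤ)) else 0
  let F : (Fin r → S → Fin p) → S' → Fin (p ^ (r - s)) := fun b i =>
    ⟨(((Phi p T r (B b)).coeff i % m) / (p : ℤ) ^ s).toNat, by
      have h1 : (Phi p T r (B b)).coeff i % m < m := Int.emod_lt_of_pos _ hm0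
      have h2 : ((Phi p T r (B b)).coeff i % m) / (p : ℤ) ^ s < (p : ℤ) ^ (r - s) := by
        apply Int.ediv_lt_of_lt_mul (by positivity)
        rw [← pow_add, Nat.sub_add_cancel hsr]
        exact h1
      have h3 : 0 ≤ ((Phi p T r (B b)).coeff i % m) / (p : ℤ) ^ s :=
        Int.ediv_nonneg (Int.emod_nonneg _ hm0.ne') (by positivity)
      rw [← Int.ofNat_lt, Int.toNat_of_nonneg h3]
      exact_mod_cast h2⟩
  have hlt : Fintype.card (S' → Fin (p ^ (r - s))) < Fintype.card (Fin r → S → Fin p) := by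
    rw [Fintype.card_fun, Fintype.card_fun, Fintype.card_fun, Fintype.card_fin, Fintype.card_fin,
      Fintype.card_fin, Fintype.card_coe, Fintype.card_coe, ← pow_mul, ← pow_mul]
    exact Nat.pow_lt_pow_right hp1 (by rw [mul_comm S.card]; exact hcard)
  obtain ⟨b, b', hne, hF⟩ := Fintype.exists_ne_map_eq_of_card_lt F hlt
  set P := Phi p T r (B b) with hP
  set P' := Phi p T r (B b') with hP'
  have hBsup : ∀ b, ∀ j < r, (B b j).support ⊆ S := by
    intro b j hj
    simp only [B, dif_pos hj]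
    exact support_poly _
  have hPs : P.support ⊆ S' := Phi_support (hBsup b) hS
  have hPs' : P'.support ⊆ S' := Phi_support (hBsup b') hS
  let G : ℤ[X] := poly (fun i : S' => P.coeff i % m - P'.coeff i % m)
  have hG : C m ∣ G - (P - P') := by
    rw [Polynomial.C_dvd_iff_dvd_coeff]
    intro i
    rw [coeff_sub, coeff_sub]
    by_cases h : i ∈ S'
    · have e : G.coeff i = P.coeff i % m - P'.coeff i % m := by
        simp only [G, coeff_poly, dif_pos h]
      rw [e]
      have h1 : m ∣ P.coeff i - P.coeff i % m := Int.dvd_self_sub_emod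
      have h2 : m ∣ P'.coeff i - P'.coeff i % m := Int.dvd_self_sub_emod
      have h3 := dvd_sub h2 h1
      have e2 : P.coeff i % m - P'.coeff i % m - (P.coeff i - P'.coeff i) =
        P'.coeff i - P'.coeff i % m - (P.coeff i - P.coeff i % m) := by ring
      rw [e2]
      exact h3
    · have e : G.coeff i = 0 := by
        simp only [G, coeff_poly, dif_neg h]
      have e1 : P.coeff i = 0 := by
        by_contra h1
        exact h (hPs (mem_support_iff.2 h1))
      have e2 : P'.coeff i = 0 := by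
        by_contra h1
        exact h (hPs' (mem_support_iff.2 h1))
      rw [e, e1, e2]
      simp
  refine ⟨G, ?_, support_poly _, ?_, ?_⟩
  · intro hG0
    rw [hG0, zero_sub, dvd_neg] at hG
    have h1 : ∀ j < r, ∀ i, |(B b j - B b' j).coeff i| < p := by
      intro j hj i
      simp only [B, dif_pos hj, coeff_sub, coeff_poly]
      split_ifs with h
      · have h1 := (b ⟨j, hj⟩ ⟨i, h⟩).2
        have h2 := (b' ⟨j, hj⟩ ⟨i, h⟩).2
        rw [abs_lt]
        constructor <;> omega
      · simpa using hp0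
    have h2 := Phi_inj hT r (B b) (B b') h1 hG
    apply hne
    funext j x
    have h3 := congrArg (fun q => q.coeff (x : ℕ)) (h2 j j.2)
    simp only [B, dif_pos j.2, coeff_poly, dif_pos x.2] at h3
    apply Fin.ext
    exact_mod_cast h3
  · intro i
    simp only [G, coeff_poly]
    split_ifs with h
    · have h1 := congrFun hF ⟨i, h⟩
      simp only [F, Fin.mk.injEq] at h1
      set u := P.coeff i % m with hu
      set v := P'.coeff i % m with hv
      have hu0 : 0 ≤ u := Int.emod_nonneg _ hm0.ne'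
      have hv0 : 0 ≤ v := Int.emod_nonneg _ hm0.ne'
      have hps : (0 : ℤ) < (p : ℤ) ^ s := by positivity
      have hu1 : 0 ≤ u / (p : ℤ) ^ s := Int.ediv_nonneg hu0 hps.le
      have hv1 : 0 ≤ v / (p : ℤ) ^ s := Int.ediv_nonneg hv0 hps.le
      have h2 : u / (p : ℤ) ^ s = v / (p : ℤ) ^ s := by
        rw [← Int.toNat_of_nonneg hu1, ← Int.toNat_of_nonneg hv1]
        exact_mod_cast h1
      have h3 := Int.emod_add_mul_ediv u ((p : ℤ) ^ s)
      have h4 := Int.emod_add_mul_ediv v ((p : ℤ) ^ s)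
      have h5 := Int.emod_nonneg u hps.ne'
      have h6 := Int.emod_nonneg v hps.ne'
      have h7 := Int.emod_lt_of_pos u hps
      have h8 := Int.emod_lt_of_pos v hps
      rw [h2] at h3
      rw [abs_lt]
      constructor <;> linarith
    · simpa using pow_pos (by exact_mod_cast hp0 : (0 : ℤ) < p) s
  · intro J hpJ hTJ
    obtain ⟨W, hW⟩ := hG
    have e : G = P - P' + C m * W := by rw [← hW]; ring
    rw [e]
    refine Ideal.add_mem _ (Ideal.sub_mem _ (Phi_mem hpJ hTJ r _) (Phi_mem hpJ hTJ r _)) ?_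
    refine Ideal.mul_mem_right _ _ ?_
    rw [hm, C_pow]
    exact Ideal.pow_mem_pow hpJ r

end Pool.Agent.J6H31.LM
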