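import Pool.Agent.J6H31.LM.Grow
import Pool.Agent.J6H31.LM.Pig
import Pool.Agent.J6H31.LM.Ind
import Pool.Agent.J6H31.LM.Bad

/-!
# Monic irreducible polynomials sharing a large factor with a lacunary polynomial modulo `p`
-/

set_option autoImplicit false

namespace Pool.Agent.J6H31.LM

open Polynomial Pool.Agent.H252R3.Leh Filter

/-- exponential functions beat polynomials -/
lemma exp_beats (K : ℕ) (A x : ℝ) (hx : 1 < x) :
    ∀ᶠ r : ℕ in atTop, A * (((r * r + 1 : ℕ) : ℝ)) ^ K < x ^ r := by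
  have hx0 : 0 < x := by linarith
  have h1 : Tendsto (fun n : ℕ => (n : ℝ) ^ (2 * K) * (1 / x) ^ n) atTop (nhds 0) := by
    apply tendsto_pow_const_mul_const_pow_of_abs_lt_one
    rw [abs_of_pos (by positivity)]
    rw [div_lt_one hx0]
    exact hx
  have h2 : Tendsto (fun n : ℕ => |A| * 2 ^ K * ((n : ℝ) ^ (2 * K) * (1 / x) ^ n)) atTop
      (nhds (|A| * 2 ^ K * 0)) := h1.const_mul _
  rw [mul_zero] at h2
  filter_upwards [h2.eventually_lt_const (show (0:ℝ) < 1 by norm_num), eventually_ge_atTop 1]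
    with r hr hr1
  have hr1' : (1 : ℝ) ≤ r := by exact_mod_cast hr1
  have h3 : (((r * r + 1 : ℕ) : ℝ)) ^ K ≤ 2 ^ K * (r : ℝ) ^ (2 * K) := by
    rw [pow_mul, ← mul_pow]
    apply pow_le_pow_left₀ (by positivity)
    push_cast
    nlinarith
  have h4 : |A| * 2 ^ K * (r : ℝ) ^ (2 * K) < x ^ r := by
    have h5 : |A| * 2 ^ K * ((r : ℝ) ^ (2 * K) * (1 / x) ^ r) =
      (|A| * 2 ^ K * (r : ℝ) ^ (2 * K)) / x ^ r := by
      rw [one_div, inv_pow]
      field_simp
    rw [h5, div_lt_one (by positivity)] at hr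
    exact hr
  calc A * (((r * r + 1 : ℕ) : ℝ)) ^ K ≤ |A| * (((r * r + 1 : ℕ) : ℝ)) ^ K := by
        apply mul_le_mul_of_nonneg_right (le_abs_self A) (by positivity)
    _ ≤ |A| * (2 ^ K * (r : ℝ) ^ (2 * K)) := by gcongr
    _ = |A| * 2 ^ K * (r : ℝ) ^ (2 * K) := by ring
    _ < x ^ r := h4

lemma exists_r (K : ℕ) (θ : ℝ) (hθ0 : 0 < θ) (hθ1 : θ ≤ 1) :
    ∃ r : ℕ, 1 ≤ r ∧ (((r * r + 1 : ℕ) : ℝ)) ^ K < (1 / (1 - θ / 4)) ^ r ∧
      4 * (((r * r + 1 : ℕ) : ℝ)) ^ K ≤ (2 : ℝ) ^ (3 / 4 * θ * r) := by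
  have h1 : 1 < 1 / (1 - θ / 4) := by
    rw [lt_div_iff₀ (by linarith)]
    linarith
  have h2 : (1 : ℝ) < 2 ^ (3 / 4 * θ) := Real.one_lt_rpow (by norm_num) (by positivity)
  obtain ⟨r, hr⟩ := ((exp_beats K 1 _ h1).and ((exp_beats K 4 _ h2).and
    (eventually_ge_atTop 1))).exists
  refine ⟨r, hr.2.2, ?_, ?_⟩
  · have := hr.1
    rwa [one_mul] at this
  · have := hr.2.1.le
    rw [Real.rpow_mul (by norm_num), Real.rpow_natCast]
    exact this

lemma support_pow_subset {E : Finset ℕ} {T : ℤ[X]} (hT : T.support ⊆ E) (j : ℕ) :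
    (T ^ j).support ⊆ bx E j := by
  induction j with
  | zero =>
    intro i hi
    rw [pow_zero, mem_support_iff, coeff_one] at hi
    have : i = 0 := by
      by_contra h
      rw [if_neg h] at hi
      exact hi rfl
    rw [this]
    exact zero_mem_bx E 0
  | succ j ih =>
    intro i hi
    rw [pow_succ, mem_support_iff, coeff_mul] at hi
    obtain ⟨x, hx, hx0⟩ := Finset.exists_ne_zero_of_sum_ne_zero hi
    rw [Finset.HasAntidiagonal.mem_antidiagonal] at hx
    rw [← hx]
    exact add_mem_bx (ih (mem_support_iff.2 (left_ne_zero_of_mul hx0)))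
      (mem_bx_one (hT (mem_support_iff.2 (right_ne_zero_of_mul hx0))))

/-- a lift with the same support -/
lemma exists_lift_support (p : ℕ) (T : (ZMod p)[X]) :
    ∃ T' : ℤ[X], T'.map (Int.castRingHom (ZMod p)) = T ∧ T'.support ⊆ T.support := by
  classical
  refine ⟨poly (fun x : T.support => (ZMod.intCast_surjective (T.coeff x)).choose), ?_,
    support_poly _⟩
  ext i
  rw [coeff_map, coeff_poly]
  split_ifs with h
  · simpa using (ZMod.intCast_surjective (T.coeff i)).choose_spec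
  · rw [map_zero]
    exact (notMem_support_iff.1 h).symm

/-- **The dichotomy.** -/
theorem dichotomy (K : ℕ) (θ : ℝ) (hθ0 : 0 < θ) (hθ1 : θ ≤ 1) (r : ℕ) (hr1 : 1 ≤ r)
    (hA1 : (((r * r + 1 : ℕ) : ℝ)) ^ K < (1 / (1 - θ / 4)) ^ r)
    (hA2 : 4 * (((r * r + 1 : ℕ) : ℝ)) ^ K ≤ (2 : ℝ) ^ (3 / 4 * θ * r))
    (p : ℕ) [Fact p.Prime] (f : ℤ[X]) (H T : (ZMod p)[X]) (hf : f.Monic)
    (hT0 : T ≠ 0) (hTN : T.support.card + 1 ≤ K) (hHT : H ∣ T)
    (hHf : H ∣ f.map (Int.castRingHom (ZMod p))) (hθ : θ * f.natDegree ≤ H.natDegree) :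
    (f.natDegree * Real.log 2 ≤ (r * r * (K * T.natDegree) : ℕ) *
      Real.log (cx f).mahlerMeasure) ∨
    ∃ G : ℤ[X], G ≠ 0 ∧ R f G = 0 ∧ G.support.card ≤ (r * r + 1) ^ K ∧
      G.natDegree ≤ r * r * (K * T.natDegree) ∧ l1 G ≤ (r * r + 1) ^ K * p ^ r := by
  classical
  have hp : p.Prime := Fact.out
  have hp1 : (1 : ℝ) < p := by exact_mod_cast hp.one_lt
  have hp2 : (2 : ℝ) ≤ p := by exact_mod_cast hp.two_le
  have hp0 : (0 : ℝ) < p := by linarith
  have hlp : 0 < Real.log p := Real.log_pos hp1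
  set k : ℕ := (r * r + 1) ^ K with hk
  have hl2 : 0 < Real.log 2 := Real.log_pos (by norm_num)
  have hM1 : 1 ≤ (cx f).mahlerMeasure := one_le_mahler f hf
  have hlM : 0 ≤ Real.log (cx f).mahlerMeasure := Real.log_nonneg hM1
  set D := T.natDegree with hD
  obtain ⟨T', hT', hTs⟩ := exists_lift_support p T
  set E : Finset ℕ := insert 0 T.support with hE
  have hEc : E.card ≤ K := by
    rw [hE]
    exact (Finset.card_insert_le _ _).trans hTN
  have hED : ∀ e ∈ E, e ≤ D := by
    intro e he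
    rw [hE, Finset.mem_insert] at he
    rcases he with rfl | he
    · exact Nat.zero_le _
    · exact le_natDegree_of_mem_supp e he
  have hTE : T'.support ⊆ E := hTs.trans (Finset.subset_insert _ _)
  -- slow growth
  set δ : ℝ := θ / 4 with hδ
  have hδ0 : 0 < δ := by positivity
  have hδ1 : δ ≤ 1 / 4 := by rw [hδ]; linarith
  have hcardb : ∀ n, ((bx E n).card : ℝ) ≤ ((n + 1 : ℕ) : ℝ) ^ K := by
    intro n
    have h1 : (bx E n).card ≤ (n + 1) ^ K :=
      (card_bx E n).trans (Nat.pow_le_pow_right (by omega) hEc)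
    exact_mod_cast h1
  obtain ⟨t, ht, hslow⟩ := exists_slow (fun n => (bx E n).card)
    (Finset.card_pos.2 ⟨0, zero_mem_bx E 0⟩) r r δ (by linarith)
    (lt_of_le_of_lt (hcardb (r * r)) hA1)
  set S := bx E (t * r) with hS
  set S' := bx E ((t + 1) * r) with hS'
  set s : ℕ := ⌊(r : ℝ) * δ⌋₊ + 1 with hs
  have hr0 : (0 : ℝ) < r := by exact_mod_cast hr1
  have hs1 : (r : ℝ) * δ < s := by
    rw [hs]; push_cast; exact Nat.lt_floor_add_one _
  have hs2 : (s : ℝ) ≤ r * δ + 1 := by
    rw [hs]; push_cast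
    have := Nat.floor_le (show (0:ℝ) ≤ r * δ by positivity)
    linarith
  have hsr : s ≤ r := by
    have h1 : (⌊(r : ℝ) * δ⌋₊ : ℝ) < r := by
      calc (⌊(r : ℝ) * δ⌋₊ : ℝ) ≤ r * δ := Nat.floor_le (by positivity)
        _ < r := by nlinarith
    have h2 : ⌊(r : ℝ) * δ⌋₊ < r := by exact_mod_cast h1
    omega
  have hS'0 : (0 : ℝ) < S'.card := by
    exact_mod_cast Finset.card_pos.2 ⟨0, zero_mem_bx E _⟩
  have hcard : (r - s) * S'.card < r * S.card := by
    have h1 : (((r - s : ℕ) : ℝ)) * S'.card < r * S.card := by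
      rw [Nat.cast_sub hsr]
      calc ((r : ℝ) - s) * S'.card < (r - r * δ) * S'.card := by
            apply mul_lt_mul_of_pos_right _ hS'0
            linarith
        _ = r * ((1 - δ) * S'.card) := by ring
        _ ≤ r * S.card := by
            apply mul_le_mul_of_nonneg_left hslow hr0.le
    exact_mod_cast h1
  have hT'0 : T'.map (Int.castRingHom (ZMod p)) ≠ 0 := by rw [hT']; exact hT0
  obtain ⟨G, hG0, hGs, hGc, hGJ⟩ := pig hT'0 r s S S' (by
    intro j _ hj x hx y hy
    have h1 := support_pow_subset hTE j hy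
    have h2 := add_mem_bx hx h1
    exact bx_mono (by nlinarith) h2) hsr hcard
  have hGJ' : G ∈ (JH p H) ^ r := by
    apply hGJ (JH p H) (p_mem_JH H)
    rw [mem_JH, hT']
    exact hHT
  -- bounds for `G`
  have htr : (t + 1) * r ≤ r * r := Nat.mul_le_mul_right _ (by omega)
  have hS'k : S'.card ≤ k := by
    refine ((card_bx E _).trans (Nat.pow_le_pow_right (by omega) hEc)).trans ?_
    rw [hk]
    exact Nat.pow_le_pow_left (by omega) _
  have hGk : G.support.card ≤ k := (Finset.card_le_card hGs).trans hS'k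
  have hGl : l1 G ≤ S'.card * p ^ s := by
    unfold l1
    calc ∑ i ∈ G.support, (G.coeff i).natAbs ≤ ∑ _i ∈ G.support, p ^ s := by
          refine Finset.sum_le_sum fun i _ => ?_
          have h1 := (hGc i).le
          have h2 : ((G.coeff i).natAbs : ℤ) ≤ (p : ℤ) ^ s := by rwa [Int.natCast_natAbs]
          exact_mod_cast h2
      _ = G.support.card * p ^ s := by rw [Finset.sum_const, smul_eq_mul]
      _ ≤ _ := Nat.mul_le_mul_right _ (Finset.card_le_card hGs)
  have hGΛ : l1 G ≤ k * p ^ r := by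
    refine hGl.trans ?_
    exact Nat.mul_le_mul hS'k (Nat.pow_le_pow_right hp.pos hsr)
  have hGΔ : G.natDegree ≤ r * r * (K * D) := by
    have h1 : G.natDegree ∈ G.support := natDegree_mem_support_of_nonzero hG0
    have h2 := le_of_mem_bx (hGs h1) hED
    refine h2.trans ?_
    exact Nat.mul_le_mul htr (Nat.mul_le_mul_right _ hEc)
  by_cases hR : R f G = 0
  · exact Or.inr ⟨G, hG0, hR, hGk, hGΔ, hGΛ⟩
  · -- the good case
    left
    have h1 := pow_dvd_R' f G hf H hHf r hGJ'
    have h2 := Int.le_of_dvd (abs_pos.mpr hR) ((dvd_abs _ _).mpr h1)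
    have h3 := R_le f G hf (k * (p : ℝ) ^ s) (by positivity) (r * r * (K * D)) (by
      intro z
      refine (eval_le G _ hGΔ z).trans ?_
      have h4 : (l1 G : ℝ) ≤ k * (p : ℝ) ^ s := by
        have h5 : l1 G ≤ k * p ^ s := hGl.trans (Nat.mul_le_mul_right _ hS'k)
        exact_mod_cast h5
      gcongr)
    have h5 : ((p : ℝ) ^ (r * H.natDegree)) ≤ |(R f G : ℝ)| := by exact_mod_cast h2
    have h6 := h5.trans h3
    have hk0 : (0 : ℝ) < k := by
      have : 0 < k := by positivity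
      exact_mod_cast this
    have hM0 : 0 < (cx f).mahlerMeasure := by linarith
    have h7 := Real.log_le_log (by positivity) h6
    rw [Real.log_mul (by positivity) (by positivity), Real.log_pow, Real.log_pow, Real.log_pow,
      Real.log_mul (by positivity) (by positivity), Real.log_pow] at h7
    push_cast at h7
    -- the numbers
    have h8 : Real.log 4 + Real.log k ≤ 3 / 4 * θ * r * Real.log 2 := by
      rw [← Real.log_mul (by norm_num) hk0.ne', ← Real.log_rpow (by norm_num)]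
      apply Real.log_le_log (by positivity)
      rw [hk]
      push_cast at hA2 ⊢
      exact hA2
    have h9 : Real.log 4 = 2 * Real.log 2 := by
      rw [show (4 : ℝ) = 2 ^ 2 by norm_num, Real.log_pow]; norm_num
    have hlp2 : Real.log 2 ≤ Real.log p := Real.log_le_log (by norm_num) hp2
    have hd0 : (0 : ℝ) ≤ f.natDegree := Nat.cast_nonneg _
    have hlk : 0 ≤ Real.log k := Real.log_nonneg (by
      have : 1 ≤ k := Nat.one_le_iff_ne_zero.2 (by positivity)
      exact_mod_cast this)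
    -- `d log 2 ≤ d ((r θ - s) log p - log k)`
    have h10 : Real.log 2 ≤ ((r : ℝ) * θ - s) * Real.log p - Real.log k := by
      have e1 : (3 / 4 * θ * r - 1) ≤ (r : ℝ) * θ - s := by
        have : (s : ℝ) ≤ r * (θ / 4) + 1 := hs2
        linarith
      have e2 : (0 : ℝ) ≤ 3 / 4 * θ * r - 1 := by
        have h11 : 2 * Real.log 2 ≤ 3 / 4 * θ * r * Real.log 2 := by linarith
        have h12 := le_of_mul_le_mul_right h11 hl2
        linarith
      have e3 : (3 / 4 * θ * r - 1) * Real.log 2 ≤ ((r : ℝ) * θ - s) * Real.log p :=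
        mul_le_mul e1 hlp2 hl2.le (by linarith)
      linarith
    have e1 := mul_le_mul_of_nonneg_left h10 hd0
    have e2 : (r : ℝ) * (θ * f.natDegree) * Real.log p ≤ r * H.natDegree * Real.log p := by
      gcongr
    calc (f.natDegree : ℝ) * Real.log 2
        ≤ f.natDegree * (((r : ℝ) * θ - s) * Real.log p - Real.log k) := e1
      _ = (r : ℝ) * (θ * f.natDegree) * Real.log p -
          f.natDegree * (Real.log k + s * Real.log p) := by ring
      _ ≤ r * H.natDegree * Real.log p - f.natDegree * (Real.log k + s * Real.log p) := by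
          linarith
      _ ≤ _ := by push_cast; linarith

/-- The inequality for one prime. -/
theorem core (p : ℕ) [Fact p.Prime] (N : ℕ) (θ : ℝ) (hθ0 : 0 < θ) (hθ1 : θ ≤ 1) :
    ∃ c : ℝ, 0 < c ∧ ∀ (f : ℤ[X]) (H T : (ZMod p)[X]), f.Monic → Irreducible f → NoCyc f →
      T ≠ 0 → T.support.card ≤ N → H ∣ T → H ∣ f.map (Int.castRingHom (ZMod p)) →
      θ * f.natDegree ≤ H.natDegree →
      c * f.natDegree ≤ T.natDegree * Real.log (cx f).mahlerMeasure := by
  have hp : p.Prime := Fact.out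
  obtain ⟨r, hr1, hA1, hA2⟩ := exists_r (N + 1) θ hθ0 hθ1
  set K := N + 1 with hK
  set k : ℕ := (r * r + 1) ^ K with hk
  set Λ : ℕ := k * p ^ r with hΛ
  have hΛ0 : 0 < Λ := by
    have := hp.pos
    positivity
  set W : ℕ := (1 + (2 * Λ).factorial * k) * (r * r * K) with hW
  have hW0 : 0 < W := by positivity
  have hW0' : (0 : ℝ) < W := by exact_mod_cast hW0
  have hl2 : 0 < Real.log 2 := Real.log_pos (by norm_num)
  refine ⟨Real.log 2 / W, by positivity, ?_⟩
  intro f H T hf hi hc hT0 hTN hHT hHf hθ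
  have hM1 : 1 ≤ (cx f).mahlerMeasure := one_le_mahler f hf
  have hlM : 0 ≤ Real.log (cx f).mahlerMeasure := Real.log_nonneg hM1
  suffices hs : f.natDegree * Real.log 2 ≤
      ((1 + (2 * Λ).factorial * k) * (r * r * (K * T.natDegree)) : ℕ) *
      Real.log (cx f).mahlerMeasure by
    rw [div_mul_eq_mul_div, div_le_iff₀ hW0']
    refine le_trans (le_of_eq (mul_comm _ _)) (hs.trans (le_of_eq ?_))
    rw [hW]
    push_cast
    ring
  rcases dichotomy K θ hθ0 hθ1 r hr1 hA1 hA2 p f H T hf hT0 (by omega) hHT hHf hθ with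
    h11 | ⟨G, hG0, hR, hGk, hGΔ, hGΛ⟩
  · refine h11.trans ?_
    apply mul_le_mul_of_nonneg_right _ hlM
    push_cast
    have h12 : (0 : ℝ) ≤ (r * r * (K * T.natDegree) : ℝ) := by positivity
    have h13 : (0 : ℝ) ≤ ((2 * Λ).factorial : ℝ) * k := by positivity
    exact le_mul_of_one_le_left h12 (by linarith)
  · exact bad hf hi hc hG0 (dvd_of_R_eq_zero hf hi hR) k Λ _ hGk hGΛ hΛ0 hGΔ

/-- irreducible factors of polynomials with few terms -/
theorem badN (k : ℕ) : ∃ c : ℝ, 0 < c ∧ ∀ (f G : ℤ[X]), f.Monic → Irreducible f → NoCyc f →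
    G ≠ 0 → G.support.card ≤ k → f ∣ G →
    c * f.natDegree ≤ G.natDegree * Real.log (cx f).mahlerMeasure := by
  obtain ⟨c, hc0, h⟩ := core 2 k 1 one_pos le_rfl
  refine ⟨c, hc0, ?_⟩
  intro f G hf hi hc hG0 hGk hfG
  have hM1 : 1 ≤ (cx f).mahlerMeasure := one_le_mahler f hf
  have hlM : 0 ≤ Real.log (cx f).mahlerMeasure := Real.log_nonneg hM1
  set g := G.primPart with hg
  have hgG : G = C G.content * g := G.eq_C_content_mul_primPart
  have hcont : G.content ≠ 0 := by
    rw [Ne, content_eq_zero_iff]; exact hG0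
  have hfg : f ∣ g := by
    rw [hgG] at hfG
    obtain ⟨w, hw⟩ := hfG
    have h1 : C (((G.content.natAbs : ℕ) : ℤ)) ∣ f * w := by
      rw [← hw]
      refine Dvd.dvd.mul_right ?_ _
      rw [Polynomial.C_dvd_iff_dvd_coeff]
      intro i
      rw [coeff_C]
      split_ifs
      · exact Int.natAbs_dvd.2 dvd_rfl
      · exact dvd_zero _
    have h2 := C_dvd_of_monic_mul hf _ h1
    have h3 : C G.content ∣ w := by
      refine Dvd.dvd.trans ?_ h2
      rw [Polynomial.C_dvd_iff_dvd_coeff]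
      intro i
      rw [coeff_C]
      split_ifs
      · exact Int.dvd_natAbs.2 dvd_rfl
      · exact dvd_zero _
    obtain ⟨u, rfl⟩ := h3
    refine ⟨u, ?_⟩
    have hC : C G.content ≠ 0 := by rw [Ne, C_eq_zero]; exact hcont
    apply mul_left_cancel₀ hC
    rw [hw]
    ring
  have hgs : g.support ⊆ G.support := by
    intro i hi'
    rw [mem_support_iff] at hi' ⊢
    rw [hgG, coeff_C_mul]
    exact mul_ne_zero hcont hi'
  have hg2 : g.map (Int.castRingHom (ZMod 2)) ≠ 0 := by
    intro h0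
    have h1 := C_dvd_of_map_zero 2 h0
    have h2 := G.isPrimitive_primPart _ h1
    have h3 := Int.isUnit_iff.1 h2
    norm_num at h3
  have hgd : (g.map (Int.castRingHom (ZMod 2))).natDegree ≤ G.natDegree := by
    refine natDegree_map_le.trans ?_
    exact le_of_eq G.natDegree_primPart
  have h1 := h f (f.map (Int.castRingHom (ZMod 2))) (g.map (Int.castRingHom (ZMod 2))) hf hi hc hg2
    (((Finset.card_le_card (support_map_subset _ _)).trans (Finset.card_le_card hgs)).trans hGk)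
    (Polynomial.map_dvd _ hfg) dvd_rfl (by rw [hf.natDegree_map, one_mul])
  refine h1.trans ?_
  have : ((g.map (Int.castRingHom (ZMod 2))).natDegree : ℝ) ≤ G.natDegree := by exact_mod_cast hgd
  gcongr

/-- **The core inequality,** uniformly in the prime. -/
theorem coreU (N : ℕ) (θ : ℝ) (hθ0 : 0 < θ) (hθ1 : θ ≤ 1) :
    ∃ c : ℝ, 0 < c ∧ ∀ (p : ℕ) [Fact p.Prime] (f : ℤ[X]) (H T : (ZMod p)[X]), f.Monic →
      Irreducible f → NoCyc f → T ≠ 0 → T.support.card ≤ N → H ∣ T →
      H ∣ f.map (Int.castRingHom (ZMod p)) → θ * f.natDegree ≤ H.natDegree →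
      c * f.natDegree ≤ T.natDegree * Real.log (cx f).mahlerMeasure := by
  obtain ⟨r, hr1, hA1, hA2⟩ := exists_r (N + 1) θ hθ0 hθ1
  set K := N + 1 with hK
  set k : ℕ := (r * r + 1) ^ K with hk
  obtain ⟨c₁, hc₁, hbad⟩ := badN k
  set W : ℕ := r * r * K with hW
  have hW0 : 0 < W := by positivity
  have hW0' : (0 : ℝ) < W := by exact_mod_cast hW0
  have hl2 : 0 < Real.log 2 := Real.log_pos (by norm_num)
  refine ⟨min (Real.log 2) c₁ / W, div_pos (lt_min hl2 hc₁) hW0', ?_⟩
  intro p _ f H T hf hi hc hT0 hTN hHT hHf hθ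
  have hM1 : 1 ≤ (cx f).mahlerMeasure := one_le_mahler f hf
  have hlM : 0 ≤ Real.log (cx f).mahlerMeasure := Real.log_nonneg hM1
  have hd0 : (0 : ℝ) ≤ f.natDegree := Nat.cast_nonneg _
  have hcast : ((r * r * (K * T.natDegree) : ℕ) : ℝ) = T.natDegree * W := by
    rw [hW]; push_cast; ring
  rw [div_mul_eq_mul_div, div_le_iff₀ hW0']
  rcases dichotomy K θ hθ0 hθ1 r hr1 hA1 hA2 p f H T hf hT0 (by omega) hHT hHf hθ with
    h11 | ⟨G, hG0, hR, hGk, hGΔ, -⟩
  · rw [hcast] at h11
    calc min (Real.log 2) c₁ * f.natDegree ≤ Real.log 2 * f.natDegree := by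
          gcongr; exact min_le_left _ _
      _ = f.natDegree * Real.log 2 := mul_comm _ _
      _ ≤ _ := h11
      _ = _ := by ring
  · have h1 := hbad f G hf hi hc hG0 hGk (dvd_of_R_eq_zero hf hi hR)
    calc min (Real.log 2) c₁ * f.natDegree ≤ c₁ * f.natDegree := by
          gcongr; exact min_le_right _ _
      _ ≤ G.natDegree * Real.log (cx f).mahlerMeasure := h1
      _ ≤ (T.natDegree * W) * Real.log (cx f).mahlerMeasure := by
          have h2 : (G.natDegree : ℝ) ≤ T.natDegree * W := by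
            rw [← hcast]; exact_mod_cast hGΔ
          gcongr
      _ = _ := by ring

end Pool.Agent.J6H31.LM
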