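import Pool.Agent.J6H31.LM.Fin

/-!
# Lacunary polynomials over extension fields of the prime field
-/

set_option autoImplicit false

namespace Pool.Agent.J6H31.LM

open Polynomial Pool.Agent.H252R3.Leh

universe u

section field

variable {K : Type u} [Field K]

open scoped Classical in
/-- Polynomials dividing a polynomial of small degree have common divisors. -/
lemma sum_deg_le (g : ℕ) (l : List K[X])
    (hp : l.Pairwise (fun a b => (EuclideanDomain.gcd a b).natDegree ≤ g)) (L : K[X]) (hL : L ≠ 0)
    (hl : ∀ a ∈ l, a ∣ L) : (l.map natDegree).sum ≤ L.natDegree + g * l.length ^ 2 := by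
  induction hn : l.length generalizing l L with
  | zero =>
    rw [List.length_eq_zero_iff] at hn
    subst hn
    simp
  | succ n ih =>
    obtain ⟨H, l, rfl⟩ : ∃ H l', l = H :: l' := by
      cases l with
      | nil => simp at hn
      | cons H l' => exact ⟨H, l', rfl⟩
    rw [List.length_cons, Nat.succ_inj] at hn
    rw [List.pairwise_cons] at hp
    obtain ⟨hp1, hp2⟩ := hp
    obtain ⟨L', hL'⟩ := hl H List.mem_cons_self
    have hH0 : H ≠ 0 := by rintro rfl; rw [zero_mul] at hL'; exact hL hL'
    have hL'0 : L' ≠ 0 := by rintro rfl; rw [mul_zero] at hL'; exact hL hL'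
    have hl0 : ∀ a ∈ l, a ≠ 0 := fun a ha => by
      rintro rfl
      exact hL (zero_dvd_iff.1 (hl 0 (List.mem_cons_of_mem _ ha)))
    let q : K[X] → K[X] := fun a => a / EuclideanDomain.gcd a H
    have hq : ∀ a, EuclideanDomain.gcd a H * q a = a := fun a =>
      EuclideanDomain.mul_div_cancel' (by
        intro h
        exact hH0 ((EuclideanDomain.gcd_eq_zero_iff.1 h).2)) (EuclideanDomain.gcd_dvd_left a H)
    have h1 := ih (l.map q) (by
      rw [List.pairwise_map]
      refine hp2.imp_of_mem ?_
      intro a b ha hb hab
      refine le_trans ?_ hab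
      have hg0 : EuclideanDomain.gcd a b ≠ 0 := by
        intro h
        exact hl0 a ha ((EuclideanDomain.gcd_eq_zero_iff.1 h).1)
      refine natDegree_le_of_dvd ?_ hg0
      refine EuclideanDomain.dvd_gcd ((EuclideanDomain.gcd_dvd_left _ _).trans ?_)
        ((EuclideanDomain.gcd_dvd_right _ _).trans ?_)
      · exact Dvd.intro_left _ (hq a)
      · exact Dvd.intro_left _ (hq b)) L' hL'0 (by
      intro a' ha'
      rw [List.mem_map] at ha'
      obtain ⟨a, ha, rfl⟩ := ha'
      have h2 : a ∣ H * L' := by rw [← hL']; exact hl a (List.mem_cons_of_mem _ ha)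
      have hg0 : EuclideanDomain.gcd a H ≠ 0 := by
        intro h
        exact hl0 a ha ((EuclideanDomain.gcd_eq_zero_iff.1 h).1)
      obtain ⟨H', hH'⟩ := EuclideanDomain.gcd_dvd_right a H
      have h3 : q a ∣ H' * L' := by
        rw [← hq a] at h2
        nth_rewrite 2 [hH'] at h2
        rw [mul_assoc] at h2
        rw [← hq a] at hg0
        have h4 : EuclideanDomain.gcd a H ≠ 0 := by
          intro h
          exact hl0 a ha ((EuclideanDomain.gcd_eq_zero_iff.1 h).1)
        exact (mul_dvd_mul_iff_left h4).1 h2
      have h5 : IsCoprime (q a) H' := by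
        refine ⟨EuclideanDomain.gcdA a H, EuclideanDomain.gcdB a H, ?_⟩
        have h6 := EuclideanDomain.gcd_eq_gcd_ab a H
        have hg1 : EuclideanDomain.gcd a H ≠ 0 := by
          intro h
          exact hl0 a ha ((EuclideanDomain.gcd_eq_zero_iff.1 h).1)
        apply mul_left_cancel₀ hg1
        rw [mul_one]
        calc EuclideanDomain.gcd a H * (EuclideanDomain.gcdA a H * q a +
              EuclideanDomain.gcdB a H * H')
            = (EuclideanDomain.gcd a H * q a) * EuclideanDomain.gcdA a H +
              (EuclideanDomain.gcd a H * H') * EuclideanDomain.gcdB a H := by ring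
          _ = a * EuclideanDomain.gcdA a H + H * EuclideanDomain.gcdB a H := by rw [hq a, ← hH']
          _ = _ := h6.symm
      exact h5.dvd_of_dvd_mul_left h3) (by rw [List.length_map]; exact hn)
    have h2 : (l.map natDegree).sum ≤ ((l.map q).map natDegree).sum + g * n := by
      have h3 : ∀ a ∈ l, a.natDegree ≤ (q a).natDegree + g := by
        intro a ha
        have hqa : q a ≠ 0 := by
          intro h
          have := hq a
          rw [h, mul_zero] at this
          exact hl0 a ha this.symm
        have hg0 : EuclideanDomain.gcd a H ≠ 0 := by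
          intro h
          exact hl0 a ha ((EuclideanDomain.gcd_eq_zero_iff.1 h).1)
        have h4 : a.natDegree = (EuclideanDomain.gcd a H).natDegree + (q a).natDegree := by
          rw [← natDegree_mul hg0 hqa, hq a]
        have h5 : (EuclideanDomain.gcd a H).natDegree ≤ g := by
          refine le_trans ?_ (hp1 a ha)
          refine natDegree_le_of_dvd ?_ ?_
          · exact EuclideanDomain.dvd_gcd (EuclideanDomain.gcd_dvd_right _ _)
              (EuclideanDomain.gcd_dvd_left _ _)
          · intro h
            exact hH0 ((EuclideanDomain.gcd_eq_zero_iff.1 h).1)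
        omega
      rw [← hn]
      clear hn h1 ih hp1 hp2 hl hl0
      induction l with
      | nil => simp
      | cons a l ih2 =>
        simp only [List.map_cons, List.sum_cons, List.length_cons]
        have h4 := ih2 (fun b hb => h3 b (List.mem_cons_of_mem _ hb))
        have h5 := h3 a List.mem_cons_self
        have e : g * (l.length + 1) = g * l.length + g := by ring
        rw [e]
        omega
    rw [List.map_cons, List.sum_cons, hL', natDegree_mul hH0 hL'0]
    have e : g * (n + 1) ^ 2 = g * n ^ 2 + g * n + (g * n + g) := by ring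
    omega

/-- the fixed elements of the Frobenius map -/
lemma exists_of_pow_eq (p : ℕ) [Fact p.Prime] [CharP K p] (x : K) (h : x ^ p = x) :
    ∃ y : ZMod p, ZMod.castHom (dvd_refl p) K y = x := by
  classical
  have hp : p.Prime := Fact.out
  set ι := ZMod.castHom (dvd_refl p) K with hι
  set P : K[X] := X ^ p - X with hP
  have hP0 : P ≠ 0 := FiniteField.X_pow_card_sub_X_ne_zero K hp.one_lt
  have hPd : P.natDegree = p := FiniteField.X_pow_card_sub_X_natDegree_eq K hp.one_lt
  have hsub : Finset.univ.image ι ⊆ P.roots.toFinset := by
    intro z hz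
    rw [Finset.mem_image] at hz
    obtain ⟨y, -, rfl⟩ := hz
    rw [Multiset.mem_toFinset, mem_roots hP0, IsRoot, hP, eval_sub, eval_pow, eval_X, ← map_pow,
      ZMod.pow_card, sub_self]
  have hcard : (Finset.univ.image ι).card = p := by
    rw [Finset.card_image_of_injective _ ι.injective, Finset.card_univ, ZMod.card]
  have heq := Finset.eq_of_subset_of_card_le hsub (by
    rw [hcard]
    calc P.roots.toFinset.card ≤ Multiset.card P.roots := Multiset.toFinset_card_le _
      _ ≤ P.natDegree := card_roots' _
      _ = p := hPd)
  have hx : x ∈ P.roots.toFinset := by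
    rw [Multiset.mem_toFinset, mem_roots hP0, IsRoot, hP, eval_sub, eval_pow, eval_X, h, sub_self]
  rw [← heq, Finset.mem_image] at hx
  obtain ⟨y, -, hy⟩ := hx
  exact ⟨y, hy⟩

lemma descend (p : ℕ) [Fact p.Prime] [CharP K p] (Q : K[X]) (h : Q.map (frobenius K p) = Q) :
    ∃ Q₀ : (ZMod p)[X], Q₀.map (ZMod.castHom (dvd_refl p) K) = Q := by
  have h1 : Q ∈ Polynomial.lifts (ZMod.castHom (dvd_refl p) K) := by
    rw [Polynomial.lifts_iff_coeff_lifts]
    intro n
    obtain ⟨y, hy⟩ := exists_of_pow_eq p (Q.coeff n) (by
      have h2 := congrArg (fun q => q.coeff n) h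
      simp only [coeff_map, frobenius_def] at h2
      exact h2)
    exact ⟨y, hy⟩
  exact (Polynomial.mem_lifts Q).1 h1

lemma card_support_prod {ι : Type} (s : Finset ι) (F : ι → K[X]) (N : ℕ)
    (h : ∀ i ∈ s, (F i).support.card ≤ N) : (∏ i ∈ s, F i).support.card ≤ N ^ s.card := by
  classical
  induction s using Finset.induction_on with
  | empty =>
    simp only [Finset.prod_empty, Finset.card_empty, pow_zero]
    exact (card_support_le_one_iff_monomial).2 ⟨0, 1, by simp⟩
  | insert a s ha ih =>
    rw [Finset.prod_insert ha, Finset.card_insert_of_notMem ha, pow_succ, mul_comm (N ^ s.card)]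
    refine card_support_mul_le.trans ?_
    exact Nat.mul_le_mul (h a (Finset.mem_insert_self _ _))
      (ih fun i hi => h i (Finset.mem_insert_of_mem hi))

end field

/-- the conjugates of a polynomial -/
noncomputable def cj {K : Type u} [Field K] (p : ℕ) [Fact p.Prime] [CharP K p] (j : ℕ) (T : K[X]) :
    K[X] := T.map (iterateFrobenius K p j)

section
variable {K : Type u} [Field K] (p : ℕ) [Fact p.Prime] [CharP K p]

lemma cj_inj (j : ℕ) : Function.Injective (cj (K := K) p j) :=
  Polynomial.map_injective _ (RingHom.injective _)

lemma cj_add (i j : ℕ) (T : K[X]) : cj p (i + j) T = cj p i (cj p j T) := by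
  unfold cj
  rw [Polynomial.map_map]
  congr 1
  ext x
  rw [RingHom.comp_apply, iterateFrobenius_add_apply]

lemma cj_zero (T : K[X]) : cj p 0 T = T := by
  unfold cj
  ext i
  rw [coeff_map, iterateFrobenius_zero_apply]

lemma cj_int (j : ℕ) (f : ℤ[X]) : cj p j (f.map (Int.castRingHom K)) = f.map (Int.castRingHom K) := by
  unfold cj
  rw [Polynomial.map_map]
  congr 1
  exact Subsingleton.elim _ _

lemma cj_dvd {A B : K[X]} (h : A ∣ B) (j : ℕ) : cj p j A ∣ cj p j B := Polynomial.map_dvd _ h

lemma cj_natDegree (j : ℕ) (A : K[X]) : (cj p j A).natDegree = A.natDegree :=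
  natDegree_map _

lemma cj_support (j : ℕ) (A : K[X]) : (cj p j A).support = A.support :=
  support_map_of_injective _ (RingHom.injective _)

end

/-- **The main theorem for coefficients in any field of characteristic `p`.** -/
theorem mainExt (N : ℕ) : ∀ θ : ℝ, 0 < θ → ∃ c : ℝ, 0 < c ∧
    ∀ (p : ℕ) [Fact p.Prime] (K : Type u) [Field K] [CharP K p] (f : ℤ[X]) (H T : K[X]),
      NoCyc f → T ≠ 0 → T.support.card ≤ N → H ∣ T → H ∣ f.map (Int.castRingHom K) →
      θ * f.natDegree ≤ H.natDegree →
      c * f.natDegree ≤ T.natDegree * Real.log (cx f).mahlerMeasure := by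
  classical
  induction N with
  | zero =>
    intro θ _
    refine ⟨1, one_pos, ?_⟩
    intro p _ K _ _ f H T _ hT hTN
    rw [Nat.le_zero, Finset.card_eq_zero, support_eq_empty] at hTN
    exact absurd hTN hT
  | succ N ih =>
    intro θ hθ0
    set M₀ : ℕ := ⌈2 / θ⌉₊ + 1 with hM₀
    have hM₀1 : 1 ≤ M₀ := by omega
    have hM₀0 : (0 : ℝ) < M₀ := by exact_mod_cast hM₀1
    have hM₀2 : 2 ≤ M₀ * θ := by
      have h1 : 2 / θ ≤ M₀ := by
        refine (Nat.le_ceil _).trans ?_
        rw [hM₀]; push_cast; linarith
      rwa [div_le_iff₀ hθ0] at h1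
    set θ' : ℝ := 1 / (2 * (M₀ : ℝ) ^ 2) with hθ'
    have hθ'0 : 0 < θ' := by positivity
    obtain ⟨c₁, hc₁, h₁⟩ := ih θ' hθ'0
    obtain ⟨c₂, hc₂, h₂⟩ := main ((N + 1) ^ M₀) θ hθ0
    have hl2 : 0 < Real.log 2 := Real.log_pos (by norm_num)
    refine ⟨min c₁ (min (c₂ / M₀) (θ * Real.log 2)),
      lt_min hc₁ (lt_min (by positivity) (by positivity)), ?_⟩
    set c := min c₁ (min (c₂ / M₀) (θ * Real.log 2)) with hc
    have hcc1 : c ≤ c₁ := min_le_left _ _
    have hcc2 : c ≤ c₂ / M₀ := (min_le_right _ _).trans (min_le_left _ _)
    have hcc3 : c ≤ θ * Real.log 2 := (min_le_right _ _).trans (min_le_right _ _)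
    intro p _ K _ _ f H T hf hT0 hTN hHT hHf hθ
    have hp : p.Prime := Fact.out
    have hf0 : f ≠ 0 := by
      rintro rfl
      have := (hf 0 (by simp [cx])).1
      exact this rfl
    have hM1 : 1 ≤ (cx f).mahlerMeasure := one_le_M hf0
    have hlM : 0 ≤ Real.log (cx f).mahlerMeasure := Real.log_nonneg hM1
    have hd0 : (0 : ℝ) ≤ f.natDegree := Nat.cast_nonneg _
    have hH0 : H ≠ 0 := ne_zero_of_dvd_ne_zero hT0 hHT
    have hHD : H.natDegree ≤ T.natDegree := natDegree_le_of_dvd hHT hT0
    by_cases hd : f.natDegree = 0
    · rw [hd, Nat.cast_zero, mul_zero]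
      positivity
    have hd1 : (0 : ℝ) < f.natDegree := by
      have : 0 < f.natDegree := Nat.pos_of_ne_zero hd
      exact_mod_cast this
    set ι := ZMod.castHom (dvd_refl p) K with hι
    have hιf : (f.map (Int.castRingHom (ZMod p))).map ι = f.map (Int.castRingHom K) := by
      rw [Polynomial.map_map]
      congr 1
      exact Subsingleton.elim _ _
    by_cases hfK : f.map (Int.castRingHom K) = 0
    · -- `p` divides `f`
      have h3 : f.map (Int.castRingHom (ZMod p)) = 0 := by
        rw [← hιf] at hfK
        exact (Polynomial.map_eq_zero ι).1 hfK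
      obtain ⟨g, hg⟩ := C_dvd_of_map_zero p h3
      have hg0 : g ≠ 0 := by
        rintro rfl
        rw [mul_zero] at hg
        exact hf0 hg
      have h4 : (2 : ℝ) ≤ (cx f).mahlerMeasure := by
        have e : cx f = C (p : ℂ) * cx g := by rw [hg]; simp [cx]
        rw [e, mahlerMeasure_mul, mahlerMeasure_const]
        have h5 : (2 : ℝ) ≤ ‖(p : ℂ)‖ := by
          rw [Complex.norm_natCast]
          exact_mod_cast hp.two_le
        have h6 := one_le_M hg0
        calc (2 : ℝ) = 2 * 1 := by norm_num
          _ ≤ ‖(p : ℂ)‖ * (cx g).mahlerMeasure := by gcongr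
      have h5 : Real.log 2 ≤ Real.log (cx f).mahlerMeasure := Real.log_le_log (by norm_num) h4
      calc c * f.natDegree ≤ θ * Real.log 2 * f.natDegree := by gcongr
        _ = (θ * f.natDegree) * Real.log 2 := by ring
        _ ≤ H.natDegree * Real.log 2 := by gcongr
        _ ≤ T.natDegree * Real.log (cx f).mahlerMeasure := by
            have : (H.natDegree : ℝ) ≤ T.natDegree := by exact_mod_cast hHD
            gcongr
    · -- normalise `T`
      obtain ⟨e₀, he₀⟩ := support_nonempty.2 hT0
      have ha0 : T.coeff e₀ ≠ 0 := mem_support_iff.1 he₀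
      set T' : K[X] := C (T.coeff e₀)⁻¹ * T with hT'
      have hT'0 : T' ≠ 0 := mul_ne_zero (by rw [Ne, C_eq_zero]; exact inv_ne_zero ha0) hT0
      have hT'e : T'.coeff e₀ = 1 := by
        rw [hT', coeff_C_mul, inv_mul_cancel₀ ha0]
      have hT's : T'.support ⊆ T.support := by
        intro i hi
        rw [mem_support_iff, hT', coeff_C_mul] at hi
        rw [mem_support_iff]
        exact right_ne_zero_of_mul hi
      have hT'd : T'.natDegree = T.natDegree := by
        rw [hT', natDegree_C_mul (inv_ne_zero ha0)]
      have hHT' : H ∣ T' := hHT.mul_left _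
      have hfKd : (f.map (Int.castRingHom K)).natDegree ≤ f.natDegree := natDegree_map_le
      by_cases hper : ∃ h, 1 ≤ h ∧ h ≤ M₀ ∧ cj p h T' = T'
      · -- short period
        obtain ⟨h, hh1, hhM, hhT⟩ := hper
        set P : K[X] := ∏ j ∈ Finset.range h, cj p j T' with hP
        have hPfix : P.map (frobenius K p) = P := by
          have e1 : ∀ j, (cj p j T').map (frobenius K p) = cj p (j + 1) T' := by
            intro j
            unfold cj
            rw [Polynomial.map_map]
            congr 1
            ext x
            rw [RingHom.comp_apply, frobenius_def, iterateFrobenius_def, iterateFrobenius_def,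
              pow_succ, pow_mul]
          rw [hP, Polynomial.map_prod]
          simp_rw [e1]
          obtain ⟨n, rfl⟩ : ∃ n, h = n + 1 := ⟨h - 1, by omega⟩
          rw [Finset.prod_range_succ, Finset.prod_range_succ', hhT, cj_zero]
        have hP0 : P ≠ 0 := by
          rw [hP, Finset.prod_ne_zero_iff]
          intro j _ h0
          apply hT'0
          apply cj_inj p j
          rw [h0]
          simp [cj]
        obtain ⟨Q, hQ⟩ := descend p P hPfix
        have hQ0 : Q ≠ 0 := by
          rintro rfl
          rw [Polynomial.map_zero] at hQ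
          exact hP0 hQ.symm
        have hQs : Q.support.card ≤ (N + 1) ^ M₀ := by
          have h3 : Q.support = P.support := by
            rw [← hQ]
            exact (support_map_of_injective _ (RingHom.injective _)).symm
          rw [h3, hP]
          refine (card_support_prod _ _ (N + 1) ?_).trans ?_
          · intro j _
            rw [cj_support]
            exact (Finset.card_le_card hT's).trans hTN
          · rw [Finset.card_range]
            exact Nat.pow_le_pow_right (by omega) hhM
        have hQd : Q.natDegree ≤ M₀ * T.natDegree := by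
          have h3 : Q.natDegree = P.natDegree := by
            rw [← hQ]
            exact (natDegree_map _).symm
          rw [h3, hP]
          refine (natDegree_prod_le _ _).trans ?_
          have h4 : ∀ j ∈ Finset.range h, (cj p j T').natDegree = T.natDegree := fun j _ => by
            rw [cj_natDegree, hT'd]
          rw [Finset.sum_congr rfl h4, Finset.sum_const, Finset.card_range, smul_eq_mul]
          exact Nat.mul_le_mul_right _ hhM
        set H₀ := EuclideanDomain.gcd (f.map (Int.castRingHom (ZMod p))) Q with hH₀
        have hH₀map : H₀.map ι = EuclideanDomain.gcd (f.map (Int.castRingHom K)) P := by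
          rw [hH₀, ← gcd_map, hιf, hQ]
        have hHP : H ∣ P := by
          rw [hP]
          refine Dvd.dvd.trans ?_ (Finset.dvd_prod_of_mem _ (Finset.mem_range.2 hh1))
          rw [cj_zero]
          exact hHT'
        have hHd : H.natDegree ≤ H₀.natDegree := by
          have h3 : H ∣ H₀.map ι := by
            rw [hH₀map]
            exact EuclideanDomain.dvd_gcd hHf hHP
          have h4 : H₀.map ι ≠ 0 := by
            rw [hH₀map]
            intro h5
            exact hP0 (EuclideanDomain.gcd_eq_zero_iff.1 h5).2
          have h5 := natDegree_le_of_dvd h3 h4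
          rwa [natDegree_map] at h5
        have h3 := h₂ p f H₀ Q hf hQ0 hQs (EuclideanDomain.gcd_dvd_right _ _)
          (EuclideanDomain.gcd_dvd_left _ _) (hθ.trans (by exact_mod_cast hHd))
        have h4 : (Q.natDegree : ℝ) ≤ M₀ * T.natDegree := by exact_mod_cast hQd
        have h5 : c₂ * f.natDegree ≤ (M₀ * T.natDegree) * Real.log (cx f).mahlerMeasure :=
          h3.trans (by gcongr)
        calc c * f.natDegree ≤ c₂ / M₀ * f.natDegree := by gcongr
          _ = (c₂ * f.natDegree) / M₀ := by ring
          _ ≤ ((M₀ * T.natDegree) * Real.log (cx f).mahlerMeasure) / M₀ := by gcongr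
          _ = T.natDegree * Real.log (cx f).mahlerMeasure := by
              field_simp
      · -- long period
        push Not at hper
        set g : ℕ := ⌊θ' * f.natDegree⌋₊ with hg
        have hex : ∃ i j, i < j ∧ j < M₀ ∧
            g < (EuclideanDomain.gcd (cj p i H) (cj p j H)).natDegree := by
          by_contra hcon
          push Not at hcon
          have h3 := sum_deg_le g ((List.range M₀).map fun j => cj p j H) (by
            rw [List.pairwise_map]
            refine List.pairwise_lt_range.imp_of_mem ?_
            intro i j _ hj hij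
            exact hcon i j hij (List.mem_range.1 hj)) (f.map (Int.castRingHom K)) hfK (by
            intro a ha
            rw [List.mem_map] at ha
            obtain ⟨j, -, rfl⟩ := ha
            rw [← cj_int p j f]
            exact cj_dvd p hHf j)
          rw [List.map_map, List.length_map, List.length_range] at h3
          have h4 : (List.map (natDegree ∘ fun j => cj p j H) (List.range M₀)).sum =
              M₀ * H.natDegree := by
            have h5 : (natDegree ∘ fun j => cj p j H) = fun _ => H.natDegree := by
              funext j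
              exact cj_natDegree p j H
            rw [h5, List.map_const', List.length_range, List.sum_replicate, smul_eq_mul]
          rw [h4] at h3
          have h5 : (M₀ * H.natDegree : ℝ) ≤ f.natDegree + g * (M₀ : ℝ) ^ 2 := by
            have : M₀ * H.natDegree ≤ f.natDegree + g * M₀ ^ 2 := h3.trans (by omega)
            exact_mod_cast this
          have h6 : (g : ℝ) ≤ θ' * f.natDegree := Nat.floor_le (by positivity)
          have h7 : (g : ℝ) * (M₀ : ℝ) ^ 2 ≤ (f.natDegree : ℝ) / 2 := by
            calc (g : ℝ) * (M₀ : ℝ) ^ 2 ≤ θ' * f.natDegree * (M₀ : ℝ) ^ 2 := by gcongr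
              _ = (f.natDegree : ℝ) / 2 := by rw [hθ']; field_simp
          have h8 : 2 * (f.natDegree : ℝ) ≤ M₀ * H.natDegree := by
            calc 2 * (f.natDegree : ℝ) ≤ (M₀ * θ) * f.natDegree := by gcongr
              _ = M₀ * (θ * f.natDegree) := by ring
              _ ≤ _ := by gcongr
          linarith
        obtain ⟨i, j, hij, hj, hgd⟩ := hex
        set T'' : K[X] := cj p i T' - cj p j T' with hT''
        have hT''0 : T'' ≠ 0 := by
          intro h3
          have h4 : cj p i T' = cj p j T' := sub_eq_zero.1 h3
          have h5 : cj p (j - i) T' = T' := by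
            apply cj_inj p i
            rw [← cj_add, Nat.add_sub_cancel' hij.le]
            exact h4.symm
          exact hper (j - i) (by omega) (by omega) h5
        have hT''s : T''.support ⊆ T.support.erase e₀ := by
          intro k hk
          rw [mem_support_iff] at hk
          rw [Finset.mem_erase]
          constructor
          · rintro rfl
            apply hk
            rw [hT'', coeff_sub]
            unfold cj
            rw [coeff_map, coeff_map, hT'e, map_one, map_one, sub_self]
          · by_contra h3
            apply hk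
            have h4 : T'.coeff k = 0 := by
              by_contra h5
              exact h3 (hT's (mem_support_iff.2 h5))
            rw [hT'', coeff_sub]
            unfold cj
            rw [coeff_map, coeff_map, h4, map_zero, map_zero, sub_self]
        have hT''N : T''.support.card ≤ N := by
          refine (Finset.card_le_card hT''s).trans ?_
          rw [Finset.card_erase_of_mem he₀]
          omega
        have hT''d : T''.natDegree ≤ T.natDegree := by
          rw [hT'']
          refine (natDegree_sub_le _ _).trans ?_
          rw [cj_natDegree, cj_natDegree, hT'd, max_self]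
        set H'' := EuclideanDomain.gcd (cj p i H) (cj p j H) with hH''
        have h3 := h₁ p K f H'' T'' hf hT''0 hT''N (dvd_sub
          ((EuclideanDomain.gcd_dvd_left _ _).trans (cj_dvd p hHT' i))
          ((EuclideanDomain.gcd_dvd_right _ _).trans (cj_dvd p hHT' j))) (by
            rw [← cj_int p i f]
            exact (EuclideanDomain.gcd_dvd_left _ _).trans (cj_dvd p hHf i)) (by
            have h4 := Nat.lt_floor_add_one (θ' * f.natDegree)
            rw [← hg] at h4
            have h5 : ((g : ℝ) + 1) ≤ H''.natDegree := by exact_mod_cast hgd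
            linarith)
        calc c * f.natDegree ≤ c₁ * f.natDegree := by gcongr
          _ ≤ T''.natDegree * Real.log (cx f).mahlerMeasure := h3
          _ ≤ T.natDegree * Real.log (cx f).mahlerMeasure := by
              have : (T''.natDegree : ℝ) ≤ T.natDegree := by exact_mod_cast hT''d
              gcongr

end Pool.Agent.J6H31.LM
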