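import Pool.Agent.J6H31.LM.Core

/-!
# Polynomials sharing a large factor with a lacunary polynomial modulo `p`
-/

set_option autoImplicit false

namespace Pool.Agent.J6H31.LM

open Polynomial Pool.Agent.H252R3.Leh

lemma cx_ne_zero {g : ℤ[X]} (hg : g ≠ 0) : cx g ≠ 0 :=
  (Polynomial.map_ne_zero_iff (RingHom.injective_int _)).2 hg

lemma NoCyc.left {a b : ℤ[X]} (h : NoCyc (a * b)) : NoCyc a := by
  intro z hz
  apply h z
  rw [cx, Polynomial.map_mul, eval_mul]
  rw [cx] at hz
  rw [hz, zero_mul]

lemma NoCyc.right {a b : ℤ[X]} (h : NoCyc (a * b)) : NoCyc b := by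
  rw [mul_comm] at h
  exact h.left

lemma one_le_M {g : ℤ[X]} (hg : g ≠ 0) : 1 ≤ (cx g).mahlerMeasure := by
  have h1 := leadingCoeff_le_mahlerMeasure (cx g)
  refine le_trans ?_ h1
  rw [cx, leadingCoeff_map_of_injective (RingHom.injective_int _), eq_intCast, Complex.norm_intCast]
  exact_mod_cast Int.one_le_abs (leadingCoeff_ne_zero.2 hg)

theorem combine (N : ℕ) (θ : ℝ) (hθ0 : 0 < θ) (hθ1 : θ ≤ 1) :
    ∃ c : ℝ, 0 < c ∧ ∀ (p : ℕ) [Fact p.Prime] (T : (ZMod p)[X]), T ≠ 0 → T.support.card ≤ N →
      ∀ f : ℤ[X], f ≠ 0 →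
      NoCyc f → ∀ H : (ZMod p)[X], H ∣ T → H ∣ f.map (Int.castRingHom (ZMod p)) →
      c * (H.natDegree - θ * f.natDegree) ≤ T.natDegree * Real.log (cx f).mahlerMeasure := by
  classical
  obtain ⟨c₀, hc₀, hcore⟩ := coreU N θ hθ0 hθ1
  have hl2 : 0 < Real.log 2 := Real.log_pos (by norm_num)
  refine ⟨min c₀ (Real.log 2), lt_min hc₀ hl2, ?_⟩
  set c := min c₀ (Real.log 2) with hc
  have hc0 : 0 < c := lt_min hc₀ hl2
  intro p _ T hT0 hTN f
  induction f using WfDvdMonoid.induction_on_irreducible with
  | zero => intro h; exact absurd rfl h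
  | unit u hu =>
    intro hu0 hNC H hHT hHu
    obtain ⟨v, hv, huv⟩ := Polynomial.isUnit_iff.1 hu
    have h1 : u.natDegree = 0 := Polynomial.natDegree_eq_zero_of_isUnit hu
    have h2 : IsUnit (u.map (Int.castRingHom (ZMod p))) := hu.map (mapRingHom (Int.castRingHom (ZMod p)))
    have h3 : H.natDegree = 0 := Polynomial.natDegree_eq_zero_of_isUnit (isUnit_of_dvd_unit hHu h2)
    rw [h1, h3]
    simp only [Nat.cast_zero, mul_zero, sub_zero]
    exact mul_nonneg (Nat.cast_nonneg _) (Real.log_nonneg (one_le_M hu0))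
  | mul a i ha hi iha =>
    intro hia0 hNC H hHT hH
    rw [Polynomial.map_mul] at hH
    obtain ⟨H1, H2, hH1, hH2, rfl⟩ := exists_dvd_and_dvd_of_dvd_mul hH
    have hH0 : H1 * H2 ≠ 0 := ne_zero_of_dvd_ne_zero hT0 hHT
    have hH10 : H1 ≠ 0 := left_ne_zero_of_mul hH0
    have hH20 : H2 ≠ 0 := right_ne_zero_of_mul hH0
    have hi0 : i ≠ 0 := hi.ne_zero
    have hA := iha ha hNC.right H2 ((dvd_mul_left _ _).trans hHT) hH2
    have hH1T : H1 ∣ T := (dvd_mul_right _ _).trans hHT
    have hH1d : H1.natDegree ≤ T.natDegree := natDegree_le_of_dvd hH1T hT0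
    -- the inequality for `i`
    have hI : c * (H1.natDegree - θ * i.natDegree) ≤
        T.natDegree * Real.log (cx i).mahlerMeasure := by
      have hMi : 1 ≤ (cx i).mahlerMeasure := one_le_M hi0
      by_cases h2 : 2 ≤ (cx i).mahlerMeasure
      · have h3 : Real.log 2 ≤ Real.log (cx i).mahlerMeasure := Real.log_le_log (by norm_num) h2
        calc c * (H1.natDegree - θ * i.natDegree) ≤ c * H1.natDegree := by
              apply mul_le_mul_of_nonneg_left _ hc0.le
              have : 0 ≤ θ * (i.natDegree : ℝ) := by positivity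
              linarith
          _ ≤ Real.log 2 * T.natDegree := by
              apply mul_le_mul (min_le_right _ _) _ (Nat.cast_nonneg _) hl2.le
              exact_mod_cast hH1d
          _ ≤ Real.log (cx i).mahlerMeasure * T.natDegree := by gcongr
          _ = _ := mul_comm _ _
      · push Not at h2
        -- the leading coefficient is a unit
        have hlc : |(i.leadingCoeff : ℤ)| = 1 := by
          have h3 := leadingCoeff_le_mahlerMeasure (cx i)
          rw [cx, leadingCoeff_map_of_injective (RingHom.injective_int _), eq_intCast,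
            Complex.norm_intCast] at h3
          have h4 : |((i.leadingCoeff : ℤ) : ℝ)| < 2 := lt_of_le_of_lt h3 h2
          have h5 : |(i.leadingCoeff : ℤ)| < 2 := by exact_mod_cast h4
          have h6 : 1 ≤ |(i.leadingCoeff : ℤ)| := Int.one_le_abs (leadingCoeff_ne_zero.2 hi0)
          omega
        -- make it monic
        obtain ⟨g, hgm, hgi⟩ : ∃ g : ℤ[X], g.Monic ∧ (g = i ∨ g = -i) := by
          rcases (abs_eq (by norm_num : (0:ℤ) ≤ 1)).1 hlc with h3 | h3
          · exact ⟨i, h3, Or.inl rfl⟩
          · refine ⟨-i, ?_, Or.inr rfl⟩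
            rw [Monic, leadingCoeff_neg, h3]
            norm_num
        have hgirr : Irreducible g := by
          rcases hgi with rfl | rfl
          · exact hi
          · exact (Associated.neg_left (Associated.refl i)).symm.irreducible hi
        have hgd : g.natDegree = i.natDegree := by
          rcases hgi with rfl | rfl
          · rfl
          · exact natDegree_neg i
        have hgM : (cx g).mahlerMeasure = (cx i).mahlerMeasure := by
          rcases hgi with rfl | rfl
          · rfl
          · have e : cx (-i) = C (-1) * cx i := by simp [cx]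
            rw [e, mahlerMeasure_mul, mahlerMeasure_const]
            simp
        have hgN : NoCyc g := by
          have h3 : NoCyc i := hNC.left
          intro z hz
          apply h3 z
          rcases hgi with rfl | rfl
          · exact hz
          · rw [cx, Polynomial.map_neg, eval_neg, neg_eq_zero] at hz
            exact hz
        have hgH : H1 ∣ g.map (Int.castRingHom (ZMod p)) := by
          rcases hgi with rfl | rfl
          · exact hH1
          · rw [Polynomial.map_neg]; exact (dvd_neg).2 hH1
        rw [← hgd, ← hgM]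
        rw [← hgM] at hMi
        by_cases h4 : θ * g.natDegree ≤ H1.natDegree
        · have h5 := hcore p g H1 T hgm hgirr hgN hT0 hTN hH1T hgH h4
          refine le_trans ?_ h5
          have h6 : H1.natDegree ≤ g.natDegree := by
            have h7 := natDegree_le_of_dvd hgH (hgm.map _).ne_zero
            rwa [hgm.natDegree_map] at h7
          have h7 : (H1.natDegree : ℝ) ≤ g.natDegree := by exact_mod_cast h6
          have h8 : 0 ≤ θ * (g.natDegree : ℝ) := by positivity
          apply mul_le_mul (min_le_left _ _) (by linarith) (by linarith) hc₀.le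
        · push Not at h4
          have h5 : c * (H1.natDegree - θ * g.natDegree) ≤ 0 :=
            mul_nonpos_of_nonneg_of_nonpos hc0.le (by linarith)
          exact h5.trans (mul_nonneg (Nat.cast_nonneg _) (Real.log_nonneg hMi))
    -- add up
    have hMi0 : (cx i).mahlerMeasure ≠ 0 := by
      have := one_le_M hi0
      linarith
    have hMa0 : (cx a).mahlerMeasure ≠ 0 := by
      have := one_le_M ha
      linarith
    rw [cx, Polynomial.map_mul, mahlerMeasure_mul, Real.log_mul hMi0 hMa0, natDegree_mul hi0 ha,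
      natDegree_mul hH10 hH20]
    push_cast
    have e1 : c * ((H1.natDegree : ℝ) + H2.natDegree - θ * (i.natDegree + a.natDegree)) =
      c * (H1.natDegree - θ * i.natDegree) + c * (H2.natDegree - θ * a.natDegree) := by ring
    rw [e1, mul_add]
    exact add_le_add hI hA

/-- **The main theorem.** -/
theorem main (N : ℕ) (θ : ℝ) (hθ0 : 0 < θ) :
    ∃ c : ℝ, 0 < c ∧ ∀ (p : ℕ) [Fact p.Prime] (f : ℤ[X]) (H T : (ZMod p)[X]), NoCyc f → T ≠ 0 → T.support.card ≤ N →
      H ∣ T → H ∣ f.map (Int.castRingHom (ZMod p)) → θ * f.natDegree ≤ H.natDegree →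
      c * f.natDegree ≤ T.natDegree * Real.log (cx f).mahlerMeasure := by
  set η : ℝ := min θ 1 with hη
  have hη0 : 0 < η := lt_min hθ0 one_pos
  obtain ⟨c, hc0, h⟩ := combine N (η / 2) (by positivity) (by
    have : η ≤ 1 := min_le_right _ _
    linarith)
  refine ⟨c * (η / 2), by positivity, ?_⟩
  intro p _ f H T hf hT hTN hHT hHf hθ
  have hf0 : f ≠ 0 := by
    rintro rfl
    have := (hf 0 (by simp [cx])).1
    exact this rfl
  refine le_trans ?_ (h p T hT hTN f hf0 hf H hHT hHf)
  have h1 : η * f.natDegree ≤ θ * f.natDegree := by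
    apply mul_le_mul_of_nonneg_right (min_le_left _ _) (Nat.cast_nonneg _)
  have h2 : η / 2 * f.natDegree ≤ H.natDegree - η / 2 * f.natDegree := by linarith
  calc c * (η / 2) * f.natDegree = c * (η / 2 * f.natDegree) := by ring
    _ ≤ _ := mul_le_mul_of_nonneg_left h2 hc0.le

end Pool.Agent.J6H31.LM
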