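import Pool.Agent.J6H84.LM.Stm

/-!
# Project LM, module MAIN
-/

set_option autoImplicit false

namespace Pool.Agent.J6H31.LM

open Finset Pool.Agent.H430R2.PermCubes Pool.Agent.J6H84.LM

/-- a linear form at a point of a coordinate plane -/
theorem sum_upd {K : Type} [Field K] {m : ℕ} (b y : Fin m → K) {i0 j : Fin m} (h : j ≠ i0)
    (s t : K) : ∑ l, b l * Function.update (Function.update y i0 s) j t l =
      b i0 * s + b j * t + ∑ l ∈ (univ.erase j).erase i0, b l * y l := by
  rw [← Finset.add_sum_erase univ _ (mem_univ j),
    ← Finset.add_sum_erase (univ.erase j) _ (mem_erase.2 ⟨h.symm, mem_univ i0⟩)]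
  rw [Function.update_self, Function.update_of_ne h.symm, Function.update_self]
  have h1 : ∑ l ∈ (univ.erase j).erase i0,
      b l * Function.update (Function.update y i0 s) j t l =
      ∑ l ∈ (univ.erase j).erase i0, b l * y l := by
    refine Finset.sum_congr rfl fun l hl => ?_
    rw [mem_erase, mem_erase] at hl
    rw [Function.update_of_ne hl.2.1, Function.update_of_ne hl.1]
  rw [h1]
  ring

/-- two proportional forms have a common zero -/
theorem common_zero {K : Type} [Field K] (f g : K × K) (h : f.1 * g.2 = f.2 * g.1) :
    ∃ z : K × K, z ≠ 0 ∧ dot f z = 0 ∧ dot g z = 0 := by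
  by_cases hf : f = 0
  · by_cases hg : g = 0
    · refine ⟨(1, 0), ?_, ?_, ?_⟩
      · intro h0
        exact one_ne_zero (congrArg Prod.fst h0)
      · rw [hf]
        simp [dot]
      · rw [hg]
        simp [dot]
    · refine ⟨(-g.2, g.1), ?_, ?_, ?_⟩
      · intro h0
        apply hg
        have h1 : -g.2 = 0 := congrArg Prod.fst h0
        have h2 : g.1 = 0 := congrArg Prod.snd h0
        exact Prod.ext h2 (neg_eq_zero.1 h1)
      · rw [hf]
        simp [dot]
      · simp only [dot]
        ring
  · refine ⟨(-f.2, f.1), ?_, ?_, ?_⟩
    · intro h0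
      apply hf
      have h1 : -f.2 = 0 := congrArg Prod.fst h0
      have h2 : f.1 = 0 := congrArg Prod.snd h0
      exact Prod.ext h2 (neg_eq_zero.1 h1)
    · simp only [dot]
      ring
    · simp only [dot]
      linear_combination h

theorem main : S_Main := by
  classical
  intro hPl hGl K _ _ m k N C hm hC φ e he hcoord hLP hN R heR hlin hcard i
  by_cases hiR : i ∈ R
  · exact hlin i hiR
  have hie : ∀ l, i ≠ e l := fun l h => hiR (h ▸ heR l)
  -- cells which agree in a coordinate
  have hco : ∀ (l : Fin m) (v v' : Fin m → K), v l = v' l →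
      C (e l) (φ.symm v) = C (e l) (φ.symm v') := by
    intro l v v' h
    refine (hcoord l _ _).1 ?_
    rw [Equiv.apply_symm_apply, Equiv.apply_symm_apply, h]
  have hinj : ∀ (j : Fin m) (y : Fin m → K) (s t : K),
      C i (φ.symm (Function.update y j s)) = C i (φ.symm (Function.update y j t)) → s = t := by
    intro j y s t h
    have h1 : φ.symm (Function.update y j s) = φ.symm (Function.update y j t) := by
      refine hC.eq_of_agree (insert i ((univ.erase j).image e)) ?_ ?_
      · rw [card_insert_of_notMem, card_image_of_injective _ he, card_erase_of_mem (mem_univ j),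
          card_univ, Fintype.card_fin]
        · omega
        · rw [mem_image]
          rintro ⟨l, -, hl⟩
          exact hie l hl.symm
      · intro r hr
        rcases mem_insert.1 hr with rfl | hr
        · exact h
        · obtain ⟨l, hl, rfl⟩ := mem_image.1 hr
          refine hco l _ _ ?_
          rw [Function.update_of_ne (mem_erase.1 hl).1, Function.update_of_ne (mem_erase.1 hl).1]
    have h2 := congrFun (φ.symm.injective h1) j
    rwa [Function.update_self, Function.update_self] at h2
  have hsurj : ∀ (y : Fin m → K) (x : Fin (Fintype.card K)),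
      ∃ s, C i (φ.symm (Function.update y (⟨0, by omega⟩ : Fin m) s)) = x := by
    intro y
    have h1 : Function.Bijective
        (fun s : K => C i (φ.symm (Function.update y (⟨0, by omega⟩ : Fin m) s))) :=
      (Fintype.bijective_iff_injective_and_card _).2
        ⟨fun s t h => hinj _ y s t h, by rw [Fintype.card_fin]⟩
    exact h1.2
  have hplane : ∀ j : Fin m, j ≠ ⟨0, by omega⟩ → ∀ y : Fin m → K, ∃ w : K × K, w ≠ 0 ∧
      ∀ s t s' t', w.1 * s + w.2 * t = w.1 * s' + w.2 * t' →
      C i (φ.symm (Function.update (Function.update y ⟨0, by omega⟩ s) j t)) =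
        C i (φ.symm (Function.update (Function.update y ⟨0, by omega⟩ s') j t')) := by
    intro j hj y
    obtain ⟨i0, hi0⟩ : ∃ i0 : Fin m, i0 = ⟨0, by omega⟩ := ⟨_, rfl⟩
    rw [← hi0] at hj ⊢
    obtain ⟨T, hT⟩ : ∃ T : Finset (Fin m), T = (univ.erase j).erase i0 := ⟨_, rfl⟩
    have hTc : T.card = m - 2 := by
      rw [hT, card_erase_of_mem (mem_erase.2 ⟨hj.symm, mem_univ i0⟩), card_erase_of_mem (mem_univ j),
        card_univ, Fintype.card_fin]
      omega
    obtain ⟨I, hI⟩ : ∃ I : Finset (Fin k), I = T.image e := ⟨_, rfl⟩
    have hIc : I.card = m - 2 := by rw [hI, card_image_of_injective _ he, hTc]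
    have hIR : I ⊆ R := by
      intro r hr
      rw [hI, mem_image] at hr
      obtain ⟨l, -, rfl⟩ := hr
      exact heR l
    have hiI : i ∉ I := fun h => hiR (hIR h)
    -- two more members determine the point of the plane
    have hdet : ∀ (u v : Fin k), u ≠ v → u ∉ I → v ∉ I → ∀ z z' : K × K,
        C u (φ.symm (Function.update (Function.update y i0 z.1) j z.2)) =
          C u (φ.symm (Function.update (Function.update y i0 z'.1) j z'.2)) →
        C v (φ.symm (Function.update (Function.update y i0 z.1) j z.2)) =
          C v (φ.symm (Function.update (Function.update y i0 z'.1) j z'.2)) → z = z' := by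
      intro u v huv hu hv z z' h1 h2
      have h3 : φ.symm (Function.update (Function.update y i0 z.1) j z.2) =
          φ.symm (Function.update (Function.update y i0 z'.1) j z'.2) := by
        refine hC.eq_of_agree (insert u (insert v I)) ?_ ?_
        · rw [card_insert_of_notMem, card_insert_of_notMem hv, hIc]
          · omega
          · rw [mem_insert]
            rintro (h | h)
            · exact huv h
            · exact hu h
        · intro r hr
          rcases mem_insert.1 hr with rfl | hr
          · exact h1
          rcases mem_insert.1 hr with rfl | hr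
          · exact h2
          rw [hI, mem_image] at hr
          obtain ⟨l, hl, rfl⟩ := hr
          rw [hT, mem_erase, mem_erase] at hl
          refine hco l _ _ ?_
          rw [Function.update_of_ne hl.2.1, Function.update_of_ne hl.1,
            Function.update_of_ne hl.2.1, Function.update_of_ne hl.1]
      have h4 := φ.symm.injective h3
      have h5 := congrFun h4 j
      have h6 := congrFun h4 i0
      rw [Function.update_self, Function.update_self] at h5
      rw [Function.update_of_ne hj.symm, Function.update_of_ne hj.symm, Function.update_self,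
        Function.update_self] at h6
      exact Prod.ext h6 h5
    have hR' : ∀ r : {r // r ∈ R \ I}, r.1 ∈ R ∧ r.1 ∉ I := fun r => mem_sdiff.1 r.2
    have hlin' : ∀ r : {r // r ∈ R \ I}, LinIn φ (C r.1) := fun r => hlin r.1 (hR' r).1
    choose a ha using hlin'
    have hdot : ∀ (r : {r // r ∈ R \ I}) (z z' : K × K),
        dot (a r i0, a r j) z = dot (a r i0, a r j) z' →
        C r.1 (φ.symm (Function.update (Function.update y i0 z.1) j z.2)) =
          C r.1 (φ.symm (Function.update (Function.update y i0 z'.1) j z'.2)) := by
      intro r z z' h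
      apply ha r
      rw [Equiv.apply_symm_apply, Equiv.apply_symm_apply, sum_upd _ _ hj, sum_upd _ _ hj]
      have h1 : a r i0 * z.1 + a r j * z.2 = a r i0 * z'.1 + a r j * z'.2 := h
      rw [h1]
    have hcardι : N ≤ Fintype.card {r // r ∈ R \ I} := by
      rw [Fintype.card_coe, card_sdiff_of_subset hIR, hIc]
      omega
    obtain ⟨w, hw, hw'⟩ := hPl K N hLP (Fin (Fintype.card K)) (Fintype.card_fin _)
      {r // r ∈ R \ I} (fun r => (a r i0, a r j)) hcardι (hN.trans hcardι) (by
        intro r r' hr h
        obtain ⟨z, hz, h1, h2⟩ := common_zero _ _ h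
        apply hz
        have h3 : r.1 ≠ r'.1 := fun h => hr (Subtype.ext h)
        refine hdet r.1 r'.1 h3 (hR' r).2 (hR' r').2 z 0 (hdot r z 0 ?_) (hdot r' z 0 ?_)
        · rw [h1]
          simp [dot]
        · rw [h2]
          simp [dot])
      (fun z => C i (φ.symm (Function.update (Function.update y i0 z.1) j z.2))) (by
        intro r z z' h1 h2
        exact hdet r.1 i (fun h => hiR (h ▸ (hR' r).1)) (hR' r).2 hiI z z' (hdot r z z' h1) h2)
    exact ⟨w, hw, fun s t s' t' h => hw' (s, t) (s', t') h⟩
  obtain ⟨a, ha⟩ := hGl K (Fin (Fintype.card K)) m ⟨0, by omega⟩ (fun v => C i (φ.symm v))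
    hinj hplane hsurj
  refine ⟨a, fun x y h => ?_⟩
  have h1 := ha (φ x) (φ y) h
  simpa using h1

end Pool.Agent.J6H31.LM
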